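import Pool.Agent.X86.FR.Stage

/-! choice of the parameters -/

set_option autoImplicit false

open Set Filter Topology MeasureTheory
open scoped ENNReal NNReal

namespace Pool.Agent.X86.FR

variable {m : ℕ} {β : ℝ}

lemma pr_add (ε : ℕ → Fin (m + 1)) (k t : ℕ) :
    ∃ v : List (Fin (m + 1)), v.length = t ∧ pr ε (k + t) = pr ε k ++ v := by
  refine ⟨(pr ε (k + t)).drop k, by simp, ?_⟩
  have := List.take_append_drop k (pr ε (k + t))
  rw [pr_take ε (Nat.le_add_right k t)] at this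
  exact this.symm

lemma excess {X : ℕ → ℝ} {M l n N : ℕ → ℕ} (hX0 : X 0 = 0) (hinc : ∀ k t : ℕ, X (k + t) - X k ≤ t)
    (hM : ∀ j, M (j + 1) = M j + (l j + n j))
    (hgood : ∀ j t, N j ≤ t → t ≤ n j →
      X (M j + l j + t) - X (M j + l j) ≤ (1 / ((j : ℝ) + 1)) * t)
    (ha : ∀ j, (M j + l j) * (j + 1) ≤ n j) (hb : ∀ j, N j ≤ n j)
    (hc : ∀ j, (l (j + 1) + N (j + 1)) * (j + 2) ≤ n j) (j k : ℕ) (hk1 : M (j + 1) ≤ k)
    (hk2 : k ≤ M (j + 2)) : X k ≤ 3 * (1 / ((j : ℝ) + 1)) * k := by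
  set δ : ℝ := 1 / ((j : ℝ) + 1) with hδ
  have hj : (0:ℝ) < (j : ℝ) + 1 := by positivity
  have hδ0 : 0 < δ := by rw [hδ]; positivity
  have ha' : (M j : ℝ) + l j ≤ δ * n j := by
    have h1 : (((M j + l j) * (j + 1) : ℕ) : ℝ) ≤ n j := by exact_mod_cast ha j
    push_cast at h1
    rw [hδ, one_div, inv_mul_eq_div, le_div_iff₀ hj]
    exact h1
  have hc' : (l (j + 1) : ℝ) + N (j + 1) ≤ δ * n j := by
    have h1 : (((l (j + 1) + N (j + 1)) * (j + 2) : ℕ) : ℝ) ≤ n j := by exact_mod_cast hc j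
    push_cast at h1
    rw [hδ, one_div, inv_mul_eq_div, le_div_iff₀ hj]
    refine le_trans ?_ h1
    have h2 : (0:ℝ) ≤ (l (j + 1) : ℝ) + N (j + 1) := by positivity
    nlinarith
  have hδ' : 1 / ((j : ℝ) + 1 + 1) ≤ δ := by
    rw [hδ]; exact one_div_le_one_div_of_le hj (by linarith)
  have h0 : X (M j + l j) ≤ (M j : ℝ) + l j := by
    have := hinc 0 (M j + l j)
    rw [hX0, zero_add] at this
    push_cast at this
    linarith
  have hnM : (n j : ℝ) ≤ M (j + 1) := by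
    have : n j ≤ M (j + 1) := by rw [hM]; omega
    exact_mod_cast this
  have h1 : X (M (j + 1)) ≤ 2 * δ * n j := by
    have := hgood j (n j) (hb j) le_rfl
    rw [show M j + l j + n j = M (j + 1) by rw [hM]; ring] at this
    linarith
  have h1' : X (M (j + 1)) ≤ 2 * δ * M (j + 1) := h1.trans (by gcongr)
  have hMk : (M (j + 1) : ℝ) ≤ k := by exact_mod_cast hk1
  have hfin : ∀ s : ℕ, s ≤ l (j + 1) + N (j + 1) → M (j + 1) + s = k →
      X k ≤ 3 * δ * M (j + 1) := by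
    intro s hs hsk
    have h2 := hinc (M (j + 1)) s
    rw [hsk] at h2
    have h3 : (s : ℝ) ≤ (l (j + 1) : ℝ) + N (j + 1) := by exact_mod_cast hs
    have h4 : δ * n j ≤ δ * M (j + 1) := by gcongr
    nlinarith
  have hend : 3 * δ * (M (j + 1) : ℝ) ≤ 3 * δ * k := by gcongr
  obtain ⟨s, hs⟩ := Nat.exists_eq_add_of_le hk1
  by_cases hsl : s ≤ l (j + 1) + N (j + 1)
  · exact (hfin s hsl hs.symm).trans hend
  · push Not at hsl
    obtain ⟨t, ht⟩ := Nat.exists_eq_add_of_le (show l (j + 1) ≤ s by omega)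
    have htn : t ≤ n (j + 1) := by
      have := hk2; rw [show j + 2 = (j + 1) + 1 from rfl, hM (j + 1)] at this; omega
    have h2 := hgood (j + 1) t (by omega) htn
    push_cast at h2
    have h3 : X (M (j + 1) + l (j + 1)) ≤ 3 * δ * M (j + 1) := by
      have h2 := hinc (M (j + 1)) (l (j + 1))
      have h4 : δ * n j ≤ δ * M (j + 1) := by gcongr
      have h5 : (0:ℝ) ≤ N (j + 1) := by positivity
      nlinarith
    have h4 : k = M (j + 1) + l (j + 1) + t := by omega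
    have h5 : (1 / ((j : ℝ) + 1 + 1)) * t ≤ δ * t := by gcongr
    rw [← h4] at h2
    have h6 : (k : ℝ) = M (j + 1) + l (j + 1) + t := by exact_mod_cast h4
    have h7 : (0:ℝ) ≤ l (j + 1) := by positivity
    have h8 : (0:ℝ) ≤ t := by positivity
    rw [h6]
    nlinarith [mul_nonneg hδ0.le h7, mul_nonneg hδ0.le h8]

lemma excess_ev {X : ℕ → ℝ} {M l n N : ℕ → ℕ} (hX0 : X 0 = 0)
    (hinc : ∀ k t : ℕ, X (k + t) - X k ≤ t)
    (hM : ∀ j, M (j + 1) = M j + (l j + n j)) (hl : ∀ j, 1 ≤ l j)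
    (hgood : ∀ j t, N j ≤ t → t ≤ n j →
      X (M j + l j + t) - X (M j + l j) ≤ (1 / ((j : ℝ) + 1)) * t)
    (ha : ∀ j, (M j + l j) * (j + 1) ≤ n j) (hb : ∀ j, N j ≤ n j)
    (hc : ∀ j, (l (j + 1) + N (j + 1)) * (j + 2) ≤ n j) {e : ℝ} (he : 0 < e) :
    ∃ K : ℕ, ∀ k ≥ K, X k ≤ e * k := by
  have hmono : Monotone M := monotone_nat_of_le_succ fun j => by rw [hM]; omega
  have hMj : ∀ j, j ≤ M j := by
    intro j
    induction j with
    | zero => exact Nat.zero_le _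
    | succ j ih => rw [hM]; have := hl j; omega
  obtain ⟨j0, hj0⟩ := exists_nat_gt (3 / e)
  refine ⟨M (j0 + 1), fun k hk => ?_⟩
  have hex : ∃ j, k < M j := ⟨k + 1, by have := hMj (k + 1); omega⟩
  set j := Nat.find hex with hj
  have h1 : k < M j := Nat.find_spec hex
  have h2 : j0 + 1 < j := by
    by_contra hcon
    push Not at hcon
    have := hmono hcon
    omega
  obtain ⟨i, hi⟩ := Nat.exists_eq_add_of_le (show 2 ≤ j by omega)
  have h3 : M (i + 1) ≤ k := by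
    have := Nat.find_min hex (m := i + 1) (by rw [← hj]; omega)
    omega
  have h4 := excess hX0 hinc hM hgood ha hb hc i k h3 (by
    rw [show i + 2 = j by omega]; exact h1.le)
  refine h4.trans ?_
  have hi0 : (j0 : ℝ) ≤ i := by
    have : j0 ≤ i := by omega
    exact_mod_cast this
  have hi1 : (0:ℝ) < (i : ℝ) + 1 := by positivity
  have : 3 * (1 / ((i : ℝ) + 1)) ≤ e := by
    rw [mul_one_div, div_le_iff₀ hi1]
    rw [div_lt_iff₀ he] at hj0
    nlinarith
  gcongr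

/-- sequences of blocks have the right frequencies -/
theorem blocks_FF {pb pu : Fin (m + 1) → ℝ} (hpb : ∀ d, pb d ∈ Icc (0:ℝ) 1)
    (hpu : ∀ d, pu d ∈ Icc (0:ℝ) 1) {l n N : ℕ → ℕ} (hl : ∀ j, 1 ≤ l j)
    (ha : ∀ j, (ML l n j + l j) * (j + 1) ≤ n j) (hb : ∀ j, N j ≤ n j)
    (hc : ∀ j, (l (j + 1) + N (j + 1)) * (j + 2) ≤ n j) {ε : ℕ → Fin (m + 1)}
    (hε : Blocks l n (fun j => WW pb pu (1 / ((j : ℝ) + 1)) (N j)
      ((ML l n j + l j) * (j + 1)) (n j)) ε) : FF pb pu ε := by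
  -- the blocks
  have hblk : ∀ j, ∃ u w : List (Fin (m + 1)), u.length = l j ∧ w ∈ WW pb pu (1 / ((j : ℝ) + 1))
      (N j) ((ML l n j + l j) * (j + 1)) (n j) ∧ ∀ t ≤ n j,
      pr ε (ML l n j + l j + t) = pr ε (ML l n j) ++ (u ++ w.take t) := by
    intro j
    obtain ⟨u, w, h1, h2, h3⟩ := hε j
    refine ⟨u, w, h1, h2, fun t ht => ?_⟩
    have h4 : pr ε (ML l n j + l j + t) = (pr ε (ML l n (j + 1))).take (ML l n j + l j + t) := by
      rw [pr_take]; rw [ML_succ]; omega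
    rw [h4, h3, List.take_append, List.take_append, pr_length, h1]
    rw [List.take_of_length_le (by rw [pr_length]; omega),
      List.take_of_length_le (by rw [h1]; omega)]
    congr 3
    omega
  have hdiff : ∀ (d : Fin (m + 1)) (j t : ℕ), ∃ u w : List (Fin (m + 1)), w ∈ WW pb pu (1 / ((j : ℝ) + 1))
      (N j) ((ML l n j + l j) * (j + 1)) (n j) ∧ u.length = l j ∧ (t ≤ n j →
      ct d (pr ε (ML l n j + l j + t)) - ct d (pr ε (ML l n j + l j)) = ct d (w.take t) ∧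
      ct d (pr ε (ML l n j + l j)) = ct d (pr ε (ML l n j)) + ct d u) := by
    intro d j t
    obtain ⟨u, w, h1, h2, h3⟩ := hblk j
    refine ⟨u, w, h2, h1, fun ht => ?_⟩
    have h4 := h3 0 (Nat.zero_le _)
    simp only [add_zero, List.take_zero, List.append_nil] at h4
    rw [h3 t ht, h4, ct_append, ct_append, ct_append]
    constructor
    · ring
    · rfl
  have hinc : ∀ (d : Fin (m + 1)) (k t : ℕ), ct d (pr ε k) ≤ ct d (pr ε (k + t)) ∧
      ct d (pr ε (k + t)) ≤ ct d (pr ε k) + t := by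
    intro d k t
    obtain ⟨v, hv, hv'⟩ := pr_add ε k t
    rw [hv', ct_append]
    have h1 := ct_nonneg d v
    have h2 := ct_le d v
    rw [hv] at h2
    constructor <;> linarith
  have h00 : ∀ d, ct d (pr ε 0) = 0 := by intro d; simp [pr, ct]
  -- hits
  have hMj : ∀ j, j ≤ ML l n j := by
    intro j
    induction j with
    | zero => exact Nat.zero_le _
    | succ j ih => rw [ML_succ]; have := hl j; omega
  refine ⟨?_, ?_, ?_, ?_⟩
  · intro d e he
    obtain ⟨K, hK⟩ := excess_ev (X := fun k => ct d (pr ε k) - pb d * k) (M := ML l n) (l := l)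
      (n := n) (N := N) (by simp [h00]) (by
        intro k t
        have h1 := (hinc d k t).2
        have h2 : 0 ≤ pb d * t := mul_nonneg (hpb d).1 (Nat.cast_nonneg _)
        push_cast
        nlinarith) (ML_succ l n) hl (by
        intro j t hN ht
        obtain ⟨u, w, h1, h2, h3⟩ := hdiff d j t
        have h4 := (h3 ht).1
        have h5 := (h1.2.1 t hN ht d).2
        push_cast
        nlinarith) ha hb hc he
    refine ⟨K, fun k hk => ?_⟩
    have hkk : ct d (pr ε k) - pb d * k ≤ e * k := hK k hk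
    nlinarith
  · intro d e he
    obtain ⟨K, hK⟩ := excess_ev (X := fun k => pu d * k - ct d (pr ε k)) (M := ML l n) (l := l)
      (n := n) (N := N) (by simp [h00]) (by
        intro k t
        have h1 := (hinc d k t).1
        have h2 : pu d * t ≤ 1 * t := mul_le_mul_of_nonneg_right (hpu d).2 (Nat.cast_nonneg _)
        push_cast
        nlinarith) (ML_succ l n) hl (by
        intro j t hN ht
        obtain ⟨u, w, h1, h2, h3⟩ := hdiff d j t
        have h4 := (h3 ht).1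
        have h5 := (h1.2.1 t hN ht d).1
        push_cast
        nlinarith) ha hb hc he
    refine ⟨K, fun k hk => ?_⟩
    have hkk : pu d * k - ct d (pr ε k) ≤ e * k := hK k hk
    nlinarith
  · intro d e he K
    obtain ⟨j0, hj0⟩ := exists_nat_gt (2 / e)
    set j := max j0 K with hj
    obtain ⟨u, w, hu, hw, hblk'⟩ := hblk j
    obtain ⟨t, ht1, ht2, ht3⟩ := (hw.2.2 d).1
    refine ⟨ML l n j + l j + t, ?_, ?_⟩
    · have := hMj j; have := le_max_right j0 K; omega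
    · rw [hblk' t ht2, ct_append, ct_append]
      have g1 := ct_nonneg d (pr ε (ML l n j))
      have g2 := ct_nonneg d u
      have hj1 : (0:ℝ) < (j : ℝ) + 1 := by positivity
      have hjj : (j0 : ℝ) ≤ j := by exact_mod_cast le_max_left j0 K
      have hδe : 2 * (1 / ((j : ℝ) + 1)) ≤ e := by
        rw [mul_one_div, div_le_iff₀ hj1]
        rw [div_lt_iff₀ he] at hj0
        nlinarith
      have g3 : ((ML l n j : ℝ) + l j) ≤ (1 / ((j : ℝ) + 1)) * t := by
        have h1 : (((ML l n j + l j) * (j + 1) : ℕ) : ℝ) ≤ t := by exact_mod_cast ht1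
        push_cast at h1
        rw [one_div, inv_mul_eq_div, le_div_iff₀ hj1]
        exact h1
      have g4 : (pb d - 1 / ((j : ℝ) + 1)) * ((ML l n j : ℝ) + l j) ≤ 1 * ((ML l n j : ℝ) + l j) := by
        apply mul_le_mul_of_nonneg_right _ (by positivity)
        have := (hpb d).2
        have : 0 < 1 / ((j : ℝ) + 1) := by positivity
        linarith
      push_cast
      have g5 : (0:ℝ) ≤ t := by positivity
      have g6 : (0:ℝ) ≤ (ML l n j : ℝ) + l j := by positivity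
      have g7 : 2 * (1 / ((j : ℝ) + 1)) * ((ML l n j : ℝ) + l j + t) ≤ e * ((ML l n j : ℝ) + l j + t) := by
        gcongr
      have g8 : 0 < 1 / ((j : ℝ) + 1) := by positivity
      nlinarith [mul_nonneg g8.le g6, mul_nonneg g8.le g5]
  · intro d e he K
    obtain ⟨j0, hj0⟩ := exists_nat_gt (2 / e)
    set j := max j0 K with hj
    obtain ⟨u, w, hu, hw, hblk'⟩ := hblk j
    obtain ⟨t, ht1, ht2, ht3⟩ := (hw.2.2 d).2
    refine ⟨ML l n j + l j + t, ?_, ?_⟩
    · have := hMj j; have := le_max_right j0 K; omega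
    · rw [hblk' t ht2, ct_append, ct_append]
      have g1 := ct_le d (pr ε (ML l n j))
      have g2 := ct_le d u
      rw [pr_length] at g1
      rw [hu] at g2
      have hj1 : (0:ℝ) < (j : ℝ) + 1 := by positivity
      have hjj : (j0 : ℝ) ≤ j := by exact_mod_cast le_max_left j0 K
      have hδe : 2 * (1 / ((j : ℝ) + 1)) ≤ e := by
        rw [mul_one_div, div_le_iff₀ hj1]
        rw [div_lt_iff₀ he] at hj0
        nlinarith
      have g3 : ((ML l n j : ℝ) + l j) ≤ (1 / ((j : ℝ) + 1)) * t := by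
        have h1 : (((ML l n j + l j) * (j + 1) : ℕ) : ℝ) ≤ t := by exact_mod_cast ht1
        push_cast at h1
        rw [one_div, inv_mul_eq_div, le_div_iff₀ hj1]
        exact h1
      have g4 : 0 ≤ pu d * ((ML l n j : ℝ) + l j) := mul_nonneg (hpu d).1 (by positivity)
      push_cast
      have g5 : (0:ℝ) ≤ t := by positivity
      have g6 : (0:ℝ) ≤ (ML l n j : ℝ) + l j := by positivity
      have g7 : 2 * (1 / ((j : ℝ) + 1)) * ((ML l n j : ℝ) + l j + t) ≤ e * ((ML l n j : ℝ) + l j + t) := by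
        gcongr
      have g8 : 0 < 1 / ((j : ℝ) + 1) := by positivity
      nlinarith [mul_nonneg g8.le g6, mul_nonneg g8.le g5]

/-- the choice of the parameters -/
theorem params (h : Hyp β m) {pb pu : Fin (m + 1) → ℝ}
    (H : ∀ᵐ x ∂(volume.restrict (Icc 0 (R β m))), ∃ ε : ℕ → Fin (m + 1), Exp β x ε ∧ FF pb pu ε)
    {η0 : ℝ≥0∞} (hη0 : η0 ≠ 0) :
    ∃ (l n N : ℕ → ℕ) (η : ℕ → ℝ≥0∞), η 0 = η0 ∧ (∀ j, 1 ≤ l j) ∧
      (∀ j, (ML l n j + l j) * (j + 1) ≤ n j) ∧ (∀ j, N j ≤ n j) ∧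
      (∀ j, (l (j + 1) + N (j + 1)) * (j + 2) ≤ n j) ∧
      (∀ j, co β m (BB β m (l j) (Icc 0 (R β m))) ≤ η j) ∧
      (∀ j, cw m (l j) * co β m (PP β (WW pb pu (1 / ((j : ℝ) + 1)) (N j)
        ((ML l n j + l j) * (j + 1)) (n j)) (Icc 0 (R β m))) ≤ η j) ∧
      (∀ j, cw m (l j) * (12 * η (j + 1)) ≤ η j) := by
  have hlf : ∀ η : {η : ℝ≥0∞ // η ≠ 0}, ∃ l, 1 ≤ l ∧ co β m (BB β m l (Icc 0 (R β m))) ≤ η.1 := by
    intro η
    have h1 := (kappa h).eventually_le_const (pos_iff_ne_zero.mpr η.2)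
    obtain ⟨l, hl1, hl2⟩ := (h1.and (eventually_ge_atTop 1)).exists
    exact ⟨l, hl2, hl1⟩
  choose lf hlf1 hlf2 using hlf
  obtain ⟨st, hst0⟩ : ∃ st : {η : ℝ≥0∞ // η ≠ 0} → {η : ℝ≥0∞ // η ≠ 0},
      ∀ η, (st η).1 = η.1 / (12 * (cw m (lf η) : ℝ≥0∞)) := by
    refine ⟨fun η => ⟨η.1 / (12 * (cw m (lf η) : ℝ≥0∞)), ?_⟩, fun η => rfl⟩
    rw [ENNReal.div_ne_zero]
    exact ⟨η.2, ENNReal.mul_ne_top (by norm_num) (ENNReal.natCast_ne_top _)⟩
  obtain ⟨E, hE0, hE1⟩ : ∃ E : ℕ → {η : ℝ≥0∞ // η ≠ 0}, (E 0).1 = η0 ∧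
      ∀ j, (E (j + 1)).1 = (E j).1 / (12 * (cw m (lf (E j)) : ℝ≥0∞)) :=
    ⟨fun j => Nat.rec ⟨η0, hη0⟩ (fun _ η => st η) j, rfl, fun j => hst0 _⟩
  have hst : ∀ j : ℕ, ∃ N : ℕ, ∀ L : ℕ, ∃ n₀ : ℕ, ∀ n ≥ n₀,
      co β m (PP β (WW pb pu (1 / ((j : ℝ) + 1)) N L n) (Icc 0 (R β m))) ≤
        (E j).1 / (cw m (lf (E j)) : ℝ≥0∞) := by
    intro j
    apply stage h H (by positivity)
    rw [ENNReal.div_ne_zero]
    exact ⟨(E j).2, ENNReal.natCast_ne_top _⟩
  choose N n0 hn0 using hst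
  set l : ℕ → ℕ := fun j => lf (E j) with hl
  set nf : ℕ → ℕ → ℕ := fun j M => max (max ((M + l j) * (j + 1)) (N j))
    (max ((l (j + 1) + N (j + 1)) * (j + 2)) (n0 j ((M + l j) * (j + 1)))) with hnf
  obtain ⟨M, hM0, hM1⟩ : ∃ M : ℕ → ℕ, M 0 = 0 ∧ ∀ j, M (j + 1) = M j + (l j + nf j (M j)) :=
    ⟨fun j => Nat.rec 0 (fun i M => M + (l i + nf i M)) j, rfl, fun j => rfl⟩
  have hML : ∀ j, ML l (fun j => nf j (M j)) j = M j := by
    intro j
    induction j with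
    | zero => rw [hM0]; simp [ML]
    | succ j ih => rw [ML_succ, ih, hM1]
  refine ⟨l, fun j => nf j (M j), N, fun j => (E j).1, hE0, fun j => hlf1 _, ?_, ?_, ?_, fun j => hlf2 _,
    ?_, ?_⟩
  · intro j
    rw [hML]
    exact (le_max_left _ _).trans (le_max_left _ _)
  · intro j
    exact (le_max_right _ _).trans (le_max_left _ _)
  · intro j
    exact (le_max_left _ _).trans (le_max_right _ _)
  · intro j
    rw [hML]
    have h1 := hn0 j ((M j + l j) * (j + 1)) (nf j (M j)) ((le_max_right _ _).trans (le_max_right _ _))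
    calc _ ≤ (cw m (l j) : ℝ≥0∞) * ((E j).1 / (cw m (lf (E j)) : ℝ≥0∞)) := by gcongr
      _ ≤ (E j).1 := ENNReal.mul_div_le
  · intro j
    show (cw m (l j) : ℝ≥0∞) * (12 * (E (j + 1)).1) ≤ (E j).1
    rw [hE1 j]
    calc (cw m (l j) : ℝ≥0∞) * (12 * ((E j).1 / (12 * (cw m (lf (E j)) : ℝ≥0∞))))
        = (12 * (cw m (lf (E j)) : ℝ≥0∞)) * ((E j).1 / (12 * (cw m (lf (E j)) : ℝ≥0∞))) := by
          rw [← mul_assoc, mul_comm (cw m (l j) : ℝ≥0∞) 12]
      _ ≤ (E j).1 := ENNReal.mul_div_le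

/-- **Main theorem**, in terms of `Exp` and `FF`. -/
theorem main (h : Hyp β m) {pb pu : Fin (m + 1) → ℝ} (hpb : ∀ d, pb d ∈ Icc (0:ℝ) 1)
    (hpu : ∀ d, pu d ∈ Icc (0:ℝ) 1)
    (H : ∀ᵐ x ∂(volume.restrict (Icc 0 (R β m))), ∃ ε : ℕ → Fin (m + 1), Exp β x ε ∧ FF pb pu ε) :
    ∀ᵐ x ∂(volume.restrict (Icc 0 (R β m))), ∃ F : (ℕ → Bool) → (ℕ → Fin (m + 1)),
      Function.Injective F ∧ ∀ c, Exp β x (F c) ∧ FF pb pu (F c) := by
  rw [ae_restrict_iff' measurableSet_Icc, ae_iff]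
  have key : ∀ η0 : ℝ≥0∞, η0 ≠ 0 → volume {x | ¬ (x ∈ Icc 0 (R β m) →
      ∃ F : (ℕ → Bool) → (ℕ → Fin (m + 1)),
      Function.Injective F ∧ ∀ c, Exp β x (F c) ∧ FF pb pu (F c))} ≤ 3 * η0 := by
    intro η0 hη0
    obtain ⟨l, n, N, η, hη, hl, ha, hb, hc, h1, h2, h3⟩ := params h H hη0
    have h4 := SI_co h (l := l) (W := fun j => WW pb pu (1 / ((j : ℝ) + 1)) (N j)
      ((ML l n j + l j) * (j + 1)) (n j)) (n := n) (fun j w hw => hw.1) h1 h2 h3 0
    rw [hη] at h4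
    refine le_trans (measure_mono ?_) h4
    intro x hx
    rw [mem_ofPred_eq] at hx
    push Not at hx
    refine ⟨hx.1, fun hS => ?_⟩
    obtain ⟨F, hF, hF'⟩ := tree h (fun j w hw => hw.1) hl hS
    obtain ⟨c, hc'⟩ := hx.2 F hF
    exact hc' (hF' c).1 (blocks_FF hpb hpu hl ha hb hc (hF' c).2)
  by_contra hne
  set v := volume {x | ¬ (x ∈ Icc 0 (R β m) →
      ∃ F : (ℕ → Bool) → (ℕ → Fin (m + 1)),
      Function.Injective F ∧ ∀ c, Exp β x (F c) ∧ FF pb pu (F c))} with hv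
  have h1 := key 1 one_ne_zero
  have hvtop : v ≠ ∞ := ne_top_of_le_ne_top (by norm_num) h1
  have h2 := key (v / 6) (by rw [ENNReal.div_ne_zero]; exact ⟨hne, by norm_num⟩)
  have h3 : 3 * (v / 6) < v := by
    rw [← ENNReal.ofReal_toReal hvtop]
    have hvpos : 0 < v.toReal := ENNReal.toReal_pos hne hvtop
    rw [show (3 : ℝ≥0∞) = ENNReal.ofReal 3 by simp, show (6 : ℝ≥0∞) = ENNReal.ofReal 6 by simp,
      ← ENNReal.ofReal_div_of_pos (by norm_num), ← ENNReal.ofReal_mul (by norm_num),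
      ENNReal.ofReal_lt_ofReal_iff hvpos]
    linarith
  exact absurd (h2.trans_lt h3) (lt_irrefl _)

end Pool.Agent.X86.FR
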