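import Pool.Agent.X86.FR.Good
import Pool.Agent.X86.FR.Param

/-! expansions made of infinitely many blocks -/

set_option autoImplicit false

open Set Filter Topology MeasureTheory
open scoped ENNReal NNReal

namespace Pool.Agent.X86.FR

variable {m : ℕ} {β : ℝ}

section
variable (W : ℕ → Set (List (Fin (m + 1))))

/-- concatenations of `i` blocks from the stage `j` -/
def CC : ℕ → ℕ → Set (List (Fin (m + 1)))
  | 0, _ => {[]}
  | i + 1, j => {x | ∃ w ∈ W j, ∃ v ∈ CC i (j + 1), x = w ++ v}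

/-- points having an expansion with `i` blocks -/
def TS (β : ℝ) : ℕ → ℕ → Set ℝ → Set ℝ
  | 0, _, S => S
  | i + 1, j, S => PP β (W j) (TS β i (j + 1) S)

/-- points having expansions with arbitrarily many blocks -/
def TI (β : ℝ) (j : ℕ) : Set ℝ := ⋂ i, TS W β i j (Icc 0 (R β m))

end

variable {W : ℕ → Set (List (Fin (m + 1)))}

lemma mem_PP {W' : Set (List (Fin (m + 1)))} {S : Set ℝ} {x : ℝ} :
    x ∈ PP β W' S ↔ ∃ w ∈ W', x ∈ pw β w '' S := by
  unfold PP; simp only [mem_iUnion, exists_prop]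

lemma TS_eq (i j : ℕ) (S : Set ℝ) : TS W β i j S = PP β (CC W i j) S := by
  induction i generalizing j with
  | zero =>
    ext x
    rw [mem_PP]
    simp [TS, CC]
  | succ i ih =>
    ext x
    simp only [TS, ih]
    simp only [mem_PP]
    constructor
    · rintro ⟨w, hw, y, hy, rfl⟩
      rw [mem_PP] at hy
      obtain ⟨v, hv, z, hz, rfl⟩ := hy
      exact ⟨w ++ v, ⟨w, hw, v, hv, rfl⟩, z, hz, pw_append _ _ _⟩
    · rintro ⟨_, ⟨w, hw, v, hv, rfl⟩, z, hz, rfl⟩
      refine ⟨w, hw, pw β v z, ?_, (pw_append _ _ _).symm⟩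
      rw [mem_PP]
      exact ⟨v, hv, z, hz, rfl⟩

lemma TS_succ (i j : ℕ) (S : Set ℝ) : TS W β (i + 1) j S = TS W β i j (PP β (W (j + i)) S) := by
  induction i generalizing j with
  | zero => rfl
  | succ i ih =>
    show PP β (W j) (TS W β (i + 1) (j + 1) S) = PP β (W j) (TS W β i (j + 1) _)
    rw [ih, show j + 1 + i = j + (i + 1) by ring]

lemma TS_mono (i j : ℕ) {S S' : Set ℝ} (h : S ⊆ S') : TS W β i j S ⊆ TS W β i j S' := by
  induction i generalizing j with
  | zero => exact h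
  | succ i ih => exact PP_mono (ih (j + 1))

lemma TS_anti (h : Hyp β m) (j : ℕ) : Antitone (fun i => TS W β i j (Icc 0 (R β m))) := by
  apply antitone_nat_of_succ_le
  intro i
  show TS W β (i + 1) j _ ⊆ TS W β i j _
  rw [TS_succ]
  exact TS_mono i j (PP_sub h _)

lemma CC_length {lam : ℕ → ℕ} (hW : ∀ j, ∀ w ∈ W j, w.length = lam j) (i j : ℕ) :
    ∀ w ∈ CC W i j, w.length = ∑ k ∈ Finset.range i, lam (j + k) := by
  induction i generalizing j with
  | zero => rintro w hw; simp [CC] at hw; simp [hw]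
  | succ i ih =>
    rintro _ ⟨w, hw, v, hv, rfl⟩
    rw [List.length_append, hW j w hw, ih (j + 1) v hv, Finset.sum_range_succ']
    rw [add_comm, add_zero]
    congr 1
    refine Finset.sum_congr rfl fun k _ => ?_
    congr 1; ring

lemma TS_co (h : Hyp β m) {lam : ℕ → ℕ} (hW : ∀ j, ∀ w ∈ W j, w.length = lam j) (i j : ℕ) :
    co β m (TS W β i j (Icc 0 (R β m))) ≤
      4 * ∑ k ∈ Finset.range i, co β m (PP β (W (j + k)) (Icc 0 (R β m))) := by
  induction i with
  | zero => simp [TS, co]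
  | succ i ih =>
    rw [TS_succ, TS_eq, Finset.sum_range_succ, mul_add]
    refine (cover h _ (CC W i j) (CC_length hW i j) _).trans ?_
    gcongr
    rw [TS_eq] at ih
    exact ih

lemma TI_co (h : Hyp β m) {lam : ℕ → ℕ} (hW : ∀ j, ∀ w ∈ W j, w.length = lam j) :
    co β m (TI W β 0) ≤ 4 * ∑' k, co β m (PP β (W k) (Icc 0 (R β m))) := by
  unfold co TI
  rw [Set.sdiff_iInter]
  have hmono : Monotone (fun i => Icc 0 (R β m) \ TS W β i 0 (Icc 0 (R β m))) := by
    intro a b hab
    exact sdiff_subset_sdiff_right (TS_anti h 0 hab)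
  rw [hmono.measure_iUnion]
  refine iSup_le fun i => ?_
  refine (TS_co h hW i 0).trans ?_
  gcongr
  simp only [zero_add]
  exact ENNReal.sum_le_tsum _

lemma TI_step (h : Hyp β m) {lam : ℕ → ℕ} (hW : ∀ j, ∀ w ∈ W j, w.length = lam j) {j : ℕ} {x : ℝ}
    (hx : x ∈ TI W β j) : ∃ w ∈ W j, tw β w x ∈ TI W β (j + 1) := by
  classical
  by_contra hcon
  push Not at hcon
  have hf := List.finite_length_eq (Fin (m + 1)) (lam j)
  have hi : ∀ w : List (Fin (m + 1)), ∃ i₀ : ℕ, ∀ i, i₀ ≤ i → w ∈ W j →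
      tw β w x ∉ TS W β i (j + 1) (Icc 0 (R β m)) := by
    intro w
    by_cases hw : w ∈ W j
    · have h6 := hcon w hw
      unfold TI at h6
      rw [mem_iInter] at h6
      push Not at h6
      obtain ⟨i₀, hi₀⟩ := h6
      exact ⟨i₀, fun i hi _ h8 => hi₀ (TS_anti h (j + 1) hi h8)⟩
    · exact ⟨0, fun i _ hw' => absurd hw' hw⟩
  choose f hf' using hi
  set i := hf.toFinset.sup f with hidef
  have hx1 := mem_iInter.mp hx (i + 1)
  have hx2 : x ∈ PP β (W j) (TS W β i (j + 1) (Icc 0 (R β m))) := hx1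
  rw [mem_PP] at hx2
  obtain ⟨w, hw, hxw⟩ := hx2
  rw [mem_image_pw h] at hxw
  refine hf' w i ?_ hw hxw
  refine Finset.le_sup (f := f) ?_
  rw [Set.Finite.mem_toFinset]
  exact hW j w hw

/-- **Paths.** -/
theorem path (h : Hyp β m) {lam : ℕ → ℕ} (hW : ∀ j, ∀ w ∈ W j, w.length = lam j)
    (hl : ∀ j, 1 ≤ lam j) {x : ℝ} (hx : x ∈ TI W β 0) :
    ∃ ε : ℕ → Fin (m + 1), Exp β x ε ∧ ∀ j, ∃ w ∈ W j,
      pr ε (∑ k ∈ Finset.range (j + 1), lam k) = pr ε (∑ k ∈ Finset.range j, lam k) ++ w := by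
  classical
  have hstep : ∀ (j : ℕ) (y : ℝ), ∃ v : List (Fin (m + 1)), y ∈ TI W β j →
      v ∈ W j ∧ tw β v y ∈ TI W β (j + 1) := by
    intro j y
    by_cases hy : y ∈ TI W β j
    · obtain ⟨w, hw, hw'⟩ := TI_step h hW hy
      exact ⟨w, fun _ => ⟨hw, hw'⟩⟩
    · exact ⟨[], fun hy' => absurd hy' hy⟩
  choose v hv using hstep
  obtain ⟨P, hP0, hP1⟩ : ∃ P : ℕ → ℝ, P 0 = x ∧ ∀ j, P (j + 1) = tw β (v j (P j)) (P j) :=
    ⟨fun j => Nat.rec x (fun i y => tw β (v i y) y) j, rfl, fun j => rfl⟩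
  have hPm : ∀ j, P j ∈ TI W β j := by
    intro j
    induction j with
    | zero => rw [hP0]; exact hx
    | succ j ih => rw [hP1]; exact (hv j _ ih).2
  obtain ⟨V, hV0, hV1⟩ : ∃ V : ℕ → List (Fin (m + 1)), V 0 = [] ∧
      ∀ j, V (j + 1) = V j ++ v j (P j) :=
    ⟨fun j => Nat.rec [] (fun i z => z ++ v i (P i)) j, rfl, fun j => rfl⟩
  set M : ℕ → ℕ := fun j => ∑ k ∈ Finset.range j, lam k with hM
  have hM1 : ∀ j, M (j + 1) = M j + lam j := fun j => Finset.sum_range_succ _ _
  have hVlen : ∀ j, (V j).length = M j := by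
    intro j
    induction j with
    | zero => simp [hV0, hM]
    | succ j ih => rw [hV1, List.length_append, ih, hM1, hW j _ (hv j _ (hPm j)).1]
  have hPV : ∀ j, P j = tw β (V j) x := by
    intro j
    induction j with
    | zero => rw [hP0, hV0]; simp [tw]
    | succ j ih => rw [hP1, hV1, tw_append h, ← ih]
  have hML : ∀ j, j ≤ M j := by
    intro j
    induction j with
    | zero => exact Nat.zero_le _
    | succ j ih => rw [hM1]; have := hl j; omega
  have hpre : ∀ j k, V j <+: V (j + k) := by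
    intro j k
    induction k with
    | zero => exact List.prefix_rfl
    | succ k ih =>
      rw [← add_assoc, hV1]
      exact ih.trans (List.prefix_append _ _)
  set F : ℕ → Fin (m + 1) := fun i => (V (i + 1)).getD i 0 with hF
  have hFV : ∀ j i, i < M j → F i = (V j).getD i 0 := by
    intro j i hi
    have hi1 : i < (V j).length := by rw [hVlen]; exact hi
    have hi2 : i < (V (i + 1)).length := by
      rw [hVlen]; have := hML (i + 1); omega
    simp only [hF]
    rw [List.getD_eq_getElem _ _ hi1, List.getD_eq_getElem _ _ hi2]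
    rcases le_total j (i + 1) with hle | hle
    · obtain ⟨k, hk⟩ := Nat.exists_eq_add_of_le hle
      have := (hpre j k)
      rw [← hk] at this
      exact (this.getElem hi1).symm
    · obtain ⟨k, hk⟩ := Nat.exists_eq_add_of_le hle
      have := (hpre (i + 1) k)
      rw [← hk] at this
      exact this.getElem hi2
  have hpr : ∀ j, pr F (M j) = V j := by
    intro j
    apply List.ext_getElem
    · rw [pr_length, hVlen]
    · intro i h1 h2
      have hi : i < M j := by rwa [pr_length] at h1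
      have : (pr F (M j))[i] = F i := by simp [pr]
      rw [this, hFV j i hi, List.getD_eq_getElem _ _ h2]
  refine ⟨F, ?_, ?_⟩
  · intro k
    have hk := hML k
    have h1 : pr F k = (V k).take k := by
      rw [← hpr k, pr_take _ hk]
    have h2 : V k = (V k).take k ++ (V k).drop k := (List.take_append_drop k _).symm
    have h3 : x ∈ pw β (V k) '' Icc 0 (R β m) := by
      rw [mem_image_pw h, ← hPV]
      exact mem_iInter.mp (hPm k) 0
    obtain ⟨y, hy, hyx⟩ := h3
    rw [h1, ← hyx]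
    refine ⟨pw β ((V k).drop k) y, h.pw_mem _ hy, ?_⟩
    rw [← pw_append, ← h2]
  · intro j
    refine ⟨v j (P j), (hv j _ (hPm j)).1, ?_⟩
    rw [show (∑ k ∈ Finset.range (j + 1), lam k) = M (j + 1) from rfl,
      show (∑ k ∈ Finset.range j, lam k) = M j from rfl, hpr, hpr, hV1]

lemma sum_four (i : ℕ) : (i : ℝ) ^ 5 / 5 ≤ ∑ t ∈ Finset.range i, ((t : ℝ) + 1) ^ 4 := by
  induction i with
  | zero => simp
  | succ i ih =>
    rw [Finset.sum_range_succ]
    push_cast
    have : (0:ℝ) ≤ i := Nat.cast_nonneg _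
    nlinarith [pow_nonneg this 2, pow_nonneg this 3, pow_nonneg this 4]

/-- frequencies of concatenations of symmetric blocks -/
theorem sym_FF {g : Fin (m + 1) → ℝ} (hg : ∀ d, g d ∈ Icc (0:ℝ) 1) (s : ℕ)
    {ε : ℕ → Fin (m + 1)}
    (hε : ∀ j, ∃ w ∈ BW g (1 / ((s + j + 1 : ℕ) : ℝ)) ((s + j + 1) ^ 4),
      pr ε (∑ k ∈ Finset.range (j + 1), 2 * (s + k + 1) ^ 4) =
        pr ε (∑ k ∈ Finset.range j, 2 * (s + k + 1) ^ 4) ++ w) :
    FF (fun d => (g d + g (Fin.rev d)) / 2) (fun d => (g d + g (Fin.rev d)) / 2) ε := by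
  set p : Fin (m + 1) → ℝ := fun d => (g d + g (Fin.rev d)) / 2 with hp
  have hp01 : ∀ d, p d ∈ Icc (0:ℝ) 1 := by
    intro d
    have h1 := hg d
    have h2 := hg (Fin.rev d)
    simp only [hp]
    constructor <;> linarith [h1.1, h1.2, h2.1, h2.2]
  set M : ℕ → ℕ := fun j => ∑ k ∈ Finset.range j, 2 * (s + k + 1) ^ 4 with hM
  have hM1 : ∀ j, M (j + 1) = M j + 2 * (s + j + 1) ^ 4 := fun j => Finset.sum_range_succ _ _
  have herr : ∀ d i, |ct d (pr ε (M i)) - p d * M i| ≤
      ∑ t ∈ Finset.range i, 2 * ((s : ℝ) + t + 1) ^ 3 := by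
    intro d i
    induction i with
    | zero => simp [hM, pr, ct]
    | succ i ih =>
      obtain ⟨w, hw, hw'⟩ := hε i
      have hw'' : pr ε (M (i + 1)) = pr ε (M i) ++ w := hw'
      rw [hw'', ct_append, Finset.sum_range_succ]
      have h1 := BW_ct hw d
      have h2 : (M (i + 1) : ℝ) = M i + 2 * ((s + i + 1 : ℕ) : ℝ) ^ 4 := by
        rw [hM1]; push_cast; ring
      have h3 : ct d (pr ε (M i)) + ct d w - p d * (M (i + 1)) =
          (ct d (pr ε (M i)) - p d * M i) +
          (ct d w - p d * (2 * ((s + i + 1 : ℕ) : ℝ) ^ 4)) := by rw [h2]; ring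
      rw [h3]
      refine (abs_add_le _ _).trans (add_le_add ih ?_)
      have h4 : (0:ℝ) < ((s + i + 1 : ℕ) : ℝ) := by positivity
      have h5 : 2 * (1 / ((s + i + 1 : ℕ) : ℝ)) * (((s + i + 1) ^ 4 : ℕ) : ℝ) =
          2 * ((s : ℝ) + i + 1) ^ 3 := by
        push_cast
        have : (s : ℝ) + i + 1 ≠ 0 := by positivity
        field_simp
      rw [← h5]
      refine le_trans (le_of_eq ?_) h1
      simp only [hp]
      push_cast
      ring_nf
  have hMmono : Monotone M := monotone_nat_of_le_succ fun j => by rw [hM1]; omega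
  have hMj : ∀ j, j ≤ M j := by
    intro j
    induction j with
    | zero => exact Nat.zero_le _
    | succ j ih =>
      rw [hM1]
      have : 1 ≤ (s + j + 1) ^ 4 := Nat.one_le_pow _ _ (by omega)
      omega
  have hMlow : ∀ i : ℕ, 2 * ((i : ℝ) ^ 5 / 5) ≤ M i := by
    intro i
    have h1 : (M i : ℝ) = 2 * ∑ t ∈ Finset.range i, ((s : ℝ) + t + 1) ^ 4 := by
      simp only [hM]
      push_cast
      rw [Finset.mul_sum]
    rw [h1]
    have h2 := sum_four i
    have h3 : ∑ t ∈ Finset.range i, ((t : ℝ) + 1) ^ 4 ≤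
        ∑ t ∈ Finset.range i, ((s : ℝ) + t + 1) ^ 4 := by
      apply Finset.sum_le_sum
      intro t _
      have : (0:ℝ) ≤ s := Nat.cast_nonneg _
      gcongr
      linarith
    linarith
  have hstep : ∀ d (i k : ℕ), s + 1 ≤ i → M i ≤ k → k ≤ M (i + 1) →
      |ct d (pr ε k) - p d * k| ≤ 120 / (i : ℝ) * k := by
    intro d i k hi hk1 hk2
    have hi0 : (0:ℝ) < i := by
      have : 0 < i := by omega
      exact_mod_cast this
    obtain ⟨t, ht⟩ := Nat.exists_eq_add_of_le hk1
    obtain ⟨v, hv, hv'⟩ := pr_add ε (M i) t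
    have hs : (s : ℝ) + 1 ≤ i := by exact_mod_cast hi
    have h1 : |ct d (pr ε k) - p d * k| ≤
        (∑ t ∈ Finset.range i, 2 * ((s : ℝ) + t + 1) ^ 3) + t := by
      rw [ht, hv', ct_append]
      have e : ct d (pr ε (M i)) + ct d v - p d * ((M i + t : ℕ) : ℝ) =
          (ct d (pr ε (M i)) - p d * M i) + (ct d v - p d * t) := by push_cast; ring
      rw [e]
      refine (abs_add_le _ _).trans (add_le_add (herr d i) ?_)
      have g1 := ct_nonneg d v
      have g2 := ct_le d v
      rw [hv] at g2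
      have g3 : 0 ≤ p d * t := mul_nonneg (hp01 d).1 (Nat.cast_nonneg _)
      have g4 : p d * t ≤ 1 * t := mul_le_mul_of_nonneg_right (hp01 d).2 (Nat.cast_nonneg _)
      rw [abs_le]
      constructor <;> linarith
    have h2 : ∑ t ∈ Finset.range i, 2 * ((s : ℝ) + t + 1) ^ 3 ≤ 16 * (i : ℝ) ^ 4 := by
      calc ∑ t ∈ Finset.range i, 2 * ((s : ℝ) + t + 1) ^ 3
          ≤ ∑ t ∈ Finset.range i, 2 * (2 * (i : ℝ)) ^ 3 := by
            apply Finset.sum_le_sum
            intro t ht
            have : (t : ℝ) ≤ i := by exact_mod_cast (Finset.mem_range.mp ht).le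
            gcongr
            linarith
        _ = 16 * (i : ℝ) ^ 4 := by
            rw [Finset.sum_const, Finset.card_range, nsmul_eq_mul]; ring
    have h3 : (t : ℝ) ≤ 32 * (i : ℝ) ^ 4 := by
      have g1 : t ≤ 2 * (s + i + 1) ^ 4 := by rw [hM1] at hk2; omega
      calc (t : ℝ) ≤ ((2 * (s + i + 1) ^ 4 : ℕ) : ℝ) := by exact_mod_cast g1
        _ = 2 * ((s : ℝ) + i + 1) ^ 4 := by push_cast; ring
        _ ≤ 2 * (2 * (i : ℝ)) ^ 4 := by gcongr; linarith
        _ = _ := by ring
    have h4 := hMlow i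
    have h5 : (M i : ℝ) ≤ k := by exact_mod_cast hk1
    calc |ct d (pr ε k) - p d * k| ≤ 48 * (i : ℝ) ^ 4 := by linarith
      _ = 120 / (i : ℝ) * (2 * ((i : ℝ) ^ 5 / 5)) := by field_simp; norm_num
      _ ≤ 120 / (i : ℝ) * k := by
        apply mul_le_mul_of_nonneg_left (by linarith) (by positivity)
  have hev : ∀ d, ∀ e > 0, ∃ K : ℕ, ∀ k ≥ K, |ct d (pr ε k) - p d * k| ≤ e * k := by
    intro d e he
    obtain ⟨j0, hj0⟩ := exists_nat_gt (120 / e)
    set i0 := max (s + 1) j0 with hi0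
    refine ⟨M i0, fun k hk => ?_⟩
    have hex : ∃ j, k < M j := ⟨k + 1, by have := hMj (k + 1); omega⟩
    set j := Nat.find hex with hj
    have h1 : k < M j := Nat.find_spec hex
    have h2 : i0 < j := by
      by_contra hcon
      push Not at hcon
      have := hMmono hcon
      omega
    obtain ⟨i, hi⟩ := Nat.exists_eq_add_of_le (show 1 ≤ j by omega)
    have h3 : M i ≤ k := by
      have := Nat.find_min hex (m := i) (by rw [← hj]; omega)
      omega
    have h4 : i0 ≤ i := by omega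
    have h5 := hstep d i k (by have := le_max_left (s + 1) j0; omega) h3 (by
      rw [show i + 1 = j by omega]; exact h1.le)
    refine h5.trans ?_
    have h6 : (j0 : ℝ) ≤ i := by
      have := le_max_right (s + 1) j0
      have : j0 ≤ i := by omega
      exact_mod_cast this
    have h7 : (0:ℝ) < i := by
      have := le_max_left (s + 1) j0
      have : 0 < i := by omega
      exact_mod_cast this
    have h8 : 120 / (i : ℝ) ≤ e := by
      rw [div_le_iff₀ h7]
      rw [div_lt_iff₀ he] at hj0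
      nlinarith
    gcongr
  refine ⟨?_, ?_, ?_, ?_⟩
  · intro d e he
    obtain ⟨K, hK⟩ := hev d e he
    refine ⟨K, fun k hk => ?_⟩
    have := (abs_le.mp (hK k hk)).2
    linarith
  · intro d e he
    obtain ⟨K, hK⟩ := hev d e he
    refine ⟨K, fun k hk => ?_⟩
    have := (abs_le.mp (hK k hk)).1
    linarith
  · intro d e he N
    obtain ⟨K, hK⟩ := hev d e he
    refine ⟨max N K, le_max_left _ _, ?_⟩
    have := (abs_le.mp (hK _ (le_max_right N K))).1
    linarith
  · intro d e he N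
    obtain ⟨K, hK⟩ := hev d e he
    refine ⟨max N K, le_max_left _ _, ?_⟩
    have := (abs_le.mp (hK _ (le_max_right N K))).2
    linarith

/-- almost every point has an expansion with the symmetric frequencies -/
theorem sym_ae (h : Hyp β m) :
    ∀ᵐ x ∂(volume.restrict (Icc 0 (R β m))), ∃ ε : ℕ → Fin (m + 1), Exp β x ε ∧
      FF (fun d => (gg β m d + gg β m (Fin.rev d)) / 2)
        (fun d => (gg β m d + gg β m (Fin.rev d)) / 2) ε := by
  obtain ⟨C, hC0, hC⟩ := good h
  rw [ae_restrict_iff' measurableSet_Icc, ae_iff]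
  set η : ℕ → ℝ≥0∞ := fun j => 5 * ENNReal.ofReal (C * (1 / ((j : ℝ) + 1) ^ 2)) with hη
  have hηsum : ∑' j, η j ≠ ∞ := by
    rw [hη, ENNReal.tsum_mul_left]
    apply ENNReal.mul_ne_top (by norm_num)
    have hs : Summable (fun j : ℕ => C * (1 / ((j : ℝ) + 1) ^ 2)) := by
      apply Summable.mul_left
      have := (summable_nat_add_iff 1).mpr (Real.summable_one_div_nat_pow.mpr (by norm_num : 1 < 2))
      refine this.congr fun j => ?_
      push_cast; rfl
    rw [← ENNReal.ofReal_tsum_of_nonneg (fun j => by positivity) hs]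
    exact ENNReal.ofReal_ne_top
  have htend := ENNReal.tendsto_sum_nat_add η hηsum
  set W : ℕ → ℕ → Set (List (Fin (m + 1))) := fun s j =>
    BW (gg β m) (1 / ((s + j + 1 : ℕ) : ℝ)) ((s + j + 1) ^ 4) with hWdef
  have hW : ∀ s j, ∀ w ∈ W s j, w.length = 2 * (s + j + 1) ^ 4 := fun s j w hw => BW_length hw
  have hle : ∀ s, volume {x | ¬ (x ∈ Icc 0 (R β m) → ∃ ε : ℕ → Fin (m + 1), Exp β x ε ∧
      FF (fun d => (gg β m d + gg β m (Fin.rev d)) / 2)
        (fun d => (gg β m d + gg β m (Fin.rev d)) / 2) ε)} ≤ 4 * ∑' k, η (k + s) := by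
    intro s
    have h1 := TI_co h (W := W s) (lam := fun j => 2 * (s + j + 1) ^ 4) (hW s)
    have h2 : ∑' k, co β m (PP β (W s k) (Icc 0 (R β m))) ≤ ∑' k, η (k + s) := by
      apply ENNReal.tsum_le_tsum
      intro k
      refine (BW_co h _ _ _).trans ?_
      simp only [hη]
      gcongr
      have hn1 : 1 ≤ (s + k + 1) ^ 4 := Nat.one_le_pow _ _ (by omega)
      refine (hC (1 / ((s + k + 1 : ℕ) : ℝ)) (by positivity) _ hn1).trans (le_of_eq ?_)
      congr 1
      push_cast
      have : (s : ℝ) + k + 1 ≠ 0 := by positivity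
      field_simp
      ring
    refine le_trans (measure_mono ?_) (h1.trans (by gcongr))
    intro x hx
    rw [mem_ofPred_eq] at hx
    push Not at hx
    refine ⟨hx.1, fun hS => ?_⟩
    obtain ⟨ε, h3, h4⟩ := path h (lam := fun j => 2 * (s + j + 1) ^ 4) (hW s) (fun j => by
      have : 1 ≤ (s + j + 1) ^ 4 := Nat.one_le_pow _ _ (by omega)
      omega) hS
    exact hx.2 ε h3 (sym_FF (gg_mem h) s h4)
  have h0 : Tendsto (fun s => 4 * ∑' k, η (k + s)) atTop (𝓝 (4 * 0)) :=
    ENNReal.Tendsto.const_mul htend (Or.inr (by norm_num))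
  rw [mul_zero] at h0
  exact le_antisymm (ge_of_tendsto' h0 hle) bot_le

end Pool.Agent.X86.FR
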