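import Mathlib

/-! words, cylinder intervals, and the covering lemmas -/

set_option autoImplicit false

open Set Filter Topology MeasureTheory
open scoped ENNReal NNReal

namespace Pool.Agent.X86.FR

variable {m : ℕ} {β : ℝ}

/-- the inverse branch of a word -/
noncomputable def pw (β : ℝ) : List (Fin (m + 1)) → ℝ → ℝ
  | [], y => y
  | d :: u, y => (((d : ℕ) : ℝ) + pw β u y) / β

@[simp] lemma pw_nil (y : ℝ) : pw (m := m) β [] y = y := rfl
@[simp] lemma pw_cons (d : Fin (m + 1)) (u : List (Fin (m + 1))) (y : ℝ) :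
    pw β (d :: u) y = (((d : ℕ) : ℝ) + pw β u y) / β := rfl

lemma pw_append (u v : List (Fin (m + 1))) (y : ℝ) : pw β (u ++ v) y = pw β u (pw β v y) := by
  induction u with
  | nil => rfl
  | cons d u ih => simp [ih]

lemma pw_eq (hβ : 0 < β) (w : List (Fin (m + 1))) (y : ℝ) :
    pw β w y = pw β w 0 + y / β ^ w.length := by
  induction w with
  | nil => simp
  | cons d u ih =>
    simp only [pw_cons, List.length_cons]
    rw [ih]
    field_simp
    ring

/-- the right end point -/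
noncomputable def R (β : ℝ) (m : ℕ) : ℝ := m / (β - 1)

/-- the hypotheses -/
structure Hyp (β : ℝ) (m : ℕ) : Prop where
  one_lt : 1 < β
  lt : β < m + 1

lemma Hyp.pos (h : Hyp β m) : 0 < β := by linarith [h.one_lt]

lemma Hyp.m_pos (h : Hyp β m) : (0:ℝ) < m := by linarith [h.one_lt, h.lt]

lemma Hyp.R_eq (h : Hyp β m) : ((m:ℝ) + R β m) / β = R β m := by
  have h1 := h.one_lt
  unfold R
  have : β - 1 ≠ 0 := by linarith
  have : β ≠ 0 := by linarith
  field_simp
  ring

lemma Hyp.R_one (h : Hyp β m) : 1 ≤ R β m := by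
  unfold R
  rw [le_div_iff₀ (by linarith [h.one_lt])]
  linarith [h.lt]

lemma Hyp.R_pos (h : Hyp β m) : 0 < R β m := by linarith [h.R_one]

lemma Hyp.map (h : Hyp β m) (d : Fin (m + 1)) {y : ℝ} (hy : y ∈ Icc 0 (R β m)) :
    (((d : ℕ) : ℝ) + y) / β ∈ Icc 0 (R β m) := by
  have hd : ((d : ℕ) : ℝ) ≤ m := by exact_mod_cast Nat.lt_succ_iff.mp d.2
  have hb := h.pos
  constructor
  · have : (0:ℝ) ≤ ((d : ℕ) : ℝ) := Nat.cast_nonneg _
    have := hy.1
    positivity
  · rw [← h.R_eq]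
    apply div_le_div_of_nonneg_right _ hb.le
    have e := hy.2
    rw [← h.R_eq] at e
    have e2 := h.R_eq
    rw [e2] at e
    linarith

lemma Hyp.pw_mem (h : Hyp β m) (w : List (Fin (m + 1))) {y : ℝ} (hy : y ∈ Icc 0 (R β m)) :
    pw β w y ∈ Icc 0 (R β m) := by
  induction w with
  | nil => exact hy
  | cons d u ih => exact h.map d ih

/-- greedy digit -/
lemma Hyp.digit (h : Hyp β m) {x : ℝ} (hx : x ∈ Icc 0 (R β m)) :
    ∃ d : Fin (m + 1), β * x - ((d : ℕ) : ℝ) ∈ Icc 0 (R β m) := by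
  have hb := h.pos
  have hx0 : 0 ≤ β * x := mul_nonneg hb.le hx.1
  by_cases hc : β * x < m
  · refine ⟨⟨⌊β * x⌋₊, ?_⟩, ?_⟩
    · have : (⌊β * x⌋₊ : ℝ) ≤ β * x := Nat.floor_le hx0
      have : (⌊β * x⌋₊ : ℝ) < m := by linarith
      have : ⌊β * x⌋₊ < m := by exact_mod_cast this
      omega
    · have h1 := Nat.floor_le hx0
      have h2 := Nat.lt_floor_add_one (β * x)
      have h3 := h.R_one
      simp only
      constructor <;> linarith
  · refine ⟨⟨m, by omega⟩, ?_⟩
    push Not at hc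
    simp only
    refine ⟨by linarith, ?_⟩
    have h1 : β * x ≤ β * R β m := mul_le_mul_of_nonneg_left hx.2 hb.le
    have h2 := h.R_eq
    rw [div_eq_iff hb.ne'] at h2
    linarith

/-- the measure of the complement in `I` -/
noncomputable def co (β : ℝ) (m : ℕ) (S : Set ℝ) : ℝ≥0∞ := volume (Icc 0 (R β m) \ S)

lemma volume_image_pw (h : Hyp β m) (w : List (Fin (m + 1))) (A : Set ℝ) :
    volume (pw β w '' A) = ENNReal.ofReal ((β ^ w.length)⁻¹) * volume A := by
  have e : pw β w '' A = (fun z => pw β w 0 + z) '' ((fun y => (β ^ w.length)⁻¹ * y) '' A) := by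
    rw [image_image]
    apply image_congr
    intro y _
    rw [pw_eq h.pos, div_eq_inv_mul]
  rw [e, image_add_left, measure_preimage_add]
  have hb : (0:ℝ) < β ^ w.length := pow_pos h.pos _
  have := Measure.addHaar_image_homothety (volume : Measure ℝ) (0:ℝ) ((β ^ w.length)⁻¹) A
  simp only [Module.finrank_self, pow_one] at this
  rw [abs_of_pos (by positivity)] at this
  rw [← this]
  congr 1
  apply image_congr
  intro y _
  simp [AffineMap.homothety_apply]

/-- the covering lemma: with words of the same length -/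
theorem cover (h : Hyp β m) (n : ℕ) (W : Set (List (Fin (m + 1)))) (hW : ∀ w ∈ W, w.length = n)
    (S : Set ℝ) :
    co β m (⋃ w ∈ W, pw β w '' S) ≤
      co β m (⋃ w ∈ W, pw β w '' Icc 0 (R β m)) + 4 * co β m S := by
  classical
  have hWf : W.Finite := (List.finite_length_eq (Fin (m + 1)) n).subset hW
  set L : ℝ := R β m / β ^ n with hL
  have hβn : (0:ℝ) < β ^ n := pow_pos h.pos _
  have hL0 : 0 < L := div_pos h.R_pos hβn
  have hβn1 : (1:ℝ) ≤ β ^ n := one_le_pow₀ h.one_lt.le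
  -- selected words
  have hsel1 : ∀ i : ℕ, ∃ w' : List (Fin (m + 1)), w'.length = n ∧
      ∀ w ∈ W, pw β w 0 < i * L → ∀ x, i * L ≤ x → x ∈ pw β w '' Icc 0 (R β m) →
        w' ∈ W ∧ x ∈ pw β w' '' Icc 0 (R β m) := by
    intro i
    by_cases hne : ∃ w ∈ W, pw β w 0 < i * L
    · obtain ⟨w', hw', hmax⟩ := Set.exists_max_image {w | w ∈ W ∧ pw β w 0 < i * L}
        (fun w => pw β w 0) (hWf.subset fun w hw => hw.1) hne
      refine ⟨w', hW _ hw'.1, fun w hw hwi x hx hxw => ⟨hw'.1, ?_⟩⟩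
      obtain ⟨y, hy, rfl⟩ := hxw
      have h1 := hmax w ⟨hw, hwi⟩
      rw [pw_eq h.pos, hW w hw] at hx ⊢
      refine ⟨(pw β w 0 + y / β ^ n - pw β w' 0) * β ^ n, ⟨?_, ?_⟩, ?_⟩
      · apply mul_nonneg _ hβn.le
        linarith [hw'.2]
      · have : (pw β w 0 + y / β ^ n - pw β w' 0) * β ^ n = (pw β w 0 - pw β w' 0) * β ^ n + y := by
          field_simp
          ring
        rw [this]
        have h2 : (pw β w 0 - pw β w' 0) * β ^ n ≤ 0 :=
          mul_nonpos_of_nonpos_of_nonneg (by linarith) hβn.le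
        linarith [hy.2]
      · rw [pw_eq h.pos, hW w' hw'.1]; field_simp; ring
    · push Not at hne
      exact ⟨List.replicate n 0, by simp, fun w hw hwi => absurd (hne w hw) (not_le.mpr hwi)⟩
  have hsel2 : ∀ i : ℕ, ∃ w' : List (Fin (m + 1)), w'.length = n ∧
      ∀ w ∈ W, i * L ≤ pw β w 0 → ∀ x, x < (i + 1) * L → x ∈ pw β w '' Icc 0 (R β m) →
        w' ∈ W ∧ x ∈ pw β w' '' Icc 0 (R β m) := by
    intro i
    by_cases hne : ∃ w ∈ W, i * L ≤ pw β w 0
    · obtain ⟨w', hw', hmin⟩ := Set.exists_min_image {w | w ∈ W ∧ i * L ≤ pw β w 0}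
        (fun w => pw β w 0) (hWf.subset fun w hw => hw.1) hne
      refine ⟨w', hW _ hw'.1, fun w hw hwi x hx hxw => ⟨hw'.1, ?_⟩⟩
      obtain ⟨y, hy, rfl⟩ := hxw
      have h1 := hmin w ⟨hw, hwi⟩
      rw [pw_eq h.pos, hW w hw] at hx ⊢
      have hy0 : 0 ≤ y / β ^ n := div_nonneg hy.1 hβn.le
      refine ⟨(pw β w 0 + y / β ^ n - pw β w' 0) * β ^ n, ⟨?_, ?_⟩, ?_⟩
      · apply mul_nonneg _ hβn.le
        linarith
      · have h2 : pw β w 0 + y / β ^ n - pw β w' 0 ≤ L := by linarith [hw'.2]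
        calc (pw β w 0 + y / β ^ n - pw β w' 0) * β ^ n ≤ L * β ^ n :=
              mul_le_mul_of_nonneg_right h2 hβn.le
          _ = R β m := by rw [hL]; field_simp
      · rw [pw_eq h.pos, hW w' hw'.1]; field_simp; ring
    · push Not at hne
      exact ⟨List.replicate n 0, by simp, fun w hw hwi => absurd (hne w hw) (not_lt.mpr hwi)⟩
  choose f hf1 hf2 using hsel1
  choose g hg1 hg2 using hsel2
  set N : ℕ := ⌊β ^ n⌋₊ + 1 with hN
  have hNr : (N : ℝ) ≤ 2 * β ^ n := by
    rw [hN]; push_cast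
    have := Nat.floor_le hβn.le
    linarith
  have hsub : Icc 0 (R β m) \ (⋃ w ∈ W, pw β w '' S) ⊆
      (Icc 0 (R β m) \ (⋃ w ∈ W, pw β w '' Icc 0 (R β m))) ∪
      ⋃ i ∈ Finset.range N, (pw β (f i) '' (Icc 0 (R β m) \ S) ∪ pw β (g i) '' (Icc 0 (R β m) \ S)) := by
    rintro x ⟨hxI, hx⟩
    by_cases hc : x ∈ ⋃ w ∈ W, pw β w '' Icc 0 (R β m)
    · right
      simp only [mem_iUnion, exists_prop] at hc
      obtain ⟨w, hw, hxw⟩ := hc
      set i := ⌊x / L⌋₊ with hi
      have hxL : 0 ≤ x / L := div_nonneg hxI.1 hL0.le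
      have hi1 : (i:ℝ) * L ≤ x := by
        have := Nat.floor_le hxL
        rw [le_div_iff₀ hL0] at this
        exact this
      have hi2 : x < ((i:ℝ) + 1) * L := by
        have := Nat.lt_floor_add_one (x / L)
        rw [div_lt_iff₀ hL0] at this
        exact this
      have hiN : i < N := by
        rw [hN, Nat.lt_succ_iff, hi]
        apply Nat.floor_le_floor
        rw [div_le_iff₀ hL0, hL]
        calc x ≤ R β m := hxI.2
          _ = β ^ n * (R β m / β ^ n) := by field_simp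
      simp only [mem_iUnion, Finset.mem_range, exists_prop]
      refine ⟨i, hiN, ?_⟩
      have key : ∀ w' ∈ W, x ∈ pw β w' '' Icc 0 (R β m) → x ∈ pw β w' '' (Icc 0 (R β m) \ S) := by
        rintro w' hw' ⟨y, hy, rfl⟩
        refine ⟨y, ⟨hy, fun hyS => hx ?_⟩, rfl⟩
        simp only [mem_iUnion, exists_prop]
        exact ⟨w', hw', y, hyS, rfl⟩
      rcases lt_or_ge (pw β w 0) (i * L) with hlt | hge
      · left
        obtain ⟨a1, a2⟩ := hf2 i w hw hlt x hi1 hxw
        exact key _ a1 a2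
      · right
        obtain ⟨a1, a2⟩ := hg2 i w hw hge x hi2 hxw
        exact key _ a1 a2
    · left
      exact ⟨hxI, hc⟩
  unfold co
  refine (measure_mono hsub).trans ((measure_union_le _ _).trans ?_)
  gcongr
  refine (measure_biUnion_finset_le _ _).trans ?_
  have hterm : ∀ i ∈ Finset.range N, volume (pw β (f i) '' (Icc 0 (R β m) \ S) ∪
      pw β (g i) '' (Icc 0 (R β m) \ S)) ≤
      ENNReal.ofReal (2 * (β ^ n)⁻¹) * volume (Icc 0 (R β m) \ S) := by
    intro i _
    refine (measure_union_le _ _).trans ?_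
    rw [volume_image_pw h, volume_image_pw h, hf1, hg1, ← add_mul, ← ENNReal.ofReal_add (by positivity)
      (by positivity), two_mul]
  refine (Finset.sum_le_sum hterm).trans ?_
  rw [Finset.sum_const, Finset.card_range, nsmul_eq_mul, ← mul_assoc]
  gcongr
  rw [show (N : ℝ≥0∞) = ENNReal.ofReal (N : ℝ) by simp, ← ENNReal.ofReal_mul (Nat.cast_nonneg _)]
  calc ENNReal.ofReal ((N:ℝ) * (2 * (β ^ n)⁻¹)) ≤ ENNReal.ofReal 4 := by
        apply ENNReal.ofReal_le_ofReal
        calc (N:ℝ) * (2 * (β ^ n)⁻¹) ≤ (2 * β ^ n) * (2 * (β ^ n)⁻¹) := by gcongr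
          _ = 4 := by field_simp; norm_num
    _ = 4 := by simp

/-- the number of words of length `l` -/
noncomputable def cw (m l : ℕ) : ℕ := (List.finite_length_eq (Fin (m + 1)) l).toFinset.card

/-- two words -/
def BB (β : ℝ) (m l : ℕ) (S : Set ℝ) : Set ℝ :=
  {x | ∃ u u' : List (Fin (m + 1)), u.length = l ∧ u'.length = l ∧ u ≠ u' ∧
    x ∈ pw β u '' S ∧ x ∈ pw β u' '' S}

lemma branch (h : Hyp β m) (l : ℕ) (S : Set ℝ) :
    co β m (BB β m l S) ≤ co β m (BB β m l (Icc 0 (R β m))) + cw m l * co β m S := by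
  classical
  set U := (List.finite_length_eq (Fin (m + 1)) l).toFinset with hU
  have hsub : Icc 0 (R β m) \ BB β m l S ⊆ (Icc 0 (R β m) \ BB β m l (Icc 0 (R β m))) ∪
      ⋃ u ∈ U, pw β u '' (Icc 0 (R β m) \ S) := by
    rintro x ⟨hxI, hx⟩
    by_cases hc : x ∈ BB β m l (Icc 0 (R β m))
    · right
      obtain ⟨u, u', h1, h2, h3, ⟨y, hy, hyx⟩, ⟨y', hy', hyx'⟩⟩ := hc
      simp only [mem_iUnion, exists_prop]
      by_cases hyS : y ∈ S
      · refine ⟨u', by simp [hU, h2], y', ⟨hy', fun hyS' => hx ?_⟩, hyx'⟩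
        exact ⟨u, u', h1, h2, h3, ⟨y, hyS, hyx⟩, ⟨y', hyS', hyx'⟩⟩
      · exact ⟨u, by simp [hU, h1], y, ⟨hy, hyS⟩, hyx⟩
    · left; exact ⟨hxI, hc⟩
  unfold co
  refine (measure_mono hsub).trans ((measure_union_le _ _).trans ?_)
  gcongr
  refine (measure_biUnion_finset_le _ _).trans ?_
  have hterm : ∀ u ∈ U, volume (pw β u '' (Icc 0 (R β m) \ S)) ≤ volume (Icc 0 (R β m) \ S) := by
    intro u _
    rw [volume_image_pw h]
    have : ENNReal.ofReal ((β ^ u.length)⁻¹) ≤ 1 := by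
      rw [ENNReal.ofReal_le_one]
      exact inv_le_one_of_one_le₀ (one_le_pow₀ h.one_lt.le)
    calc _ ≤ 1 * volume (Icc 0 (R β m) \ S) := by gcongr
      _ = _ := one_mul _
  refine (Finset.sum_le_sum hterm).trans ?_
  rw [Finset.sum_const, nsmul_eq_mul]
  rfl

end Pool.Agent.X86.FR
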