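import Pool.Agent.X86.FR.Param

/-! translation into series and upper and lower limits -/

set_option autoImplicit false

open Set Filter Topology MeasureTheory
open scoped ENNReal NNReal

namespace Pool.Agent.X86.FR

variable {m : ℕ} {β : ℝ}

lemma pw_pr (h : Hyp β m) (ε : ℕ → Fin (m + 1)) (n : ℕ) :
    pw β (pr ε n) 0 = ∑ i ∈ Finset.range n, ((ε i : ℕ) : ℝ) / β ^ (i + 1) := by
  have hb := h.pos
  induction n with
  | zero => simp [pr]
  | succ n ih =>
    rw [pr_succ, pw_append, pw_eq hb (pr ε n), ih, Finset.sum_range_succ, pr_length]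
    simp only [pw_cons, pw_nil, add_zero]
    congr 1
    field_simp
    ring

lemma exp_iff (h : Hyp β m) (x : ℝ) (ε : ℕ → Fin (m + 1)) :
    Exp β x ε ↔ HasSum (fun i => ((ε i : ℕ) : ℝ) / β ^ (i + 1)) x := by
  have hb := h.pos
  have hnn : ∀ i, 0 ≤ ((ε i : ℕ) : ℝ) / β ^ (i + 1) := fun i => by positivity
  have hR : Tendsto (fun n : ℕ => R β m / β ^ n) atTop (𝓝 0) := by
    have := (tendsto_pow_atTop_nhds_zero_of_lt_one (r := β⁻¹) (inv_nonneg.mpr h.pos.le)
      (inv_lt_one_of_one_lt₀ h.one_lt)).const_mul (R β m)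
    rw [mul_zero] at this
    refine this.congr fun n => ?_
    rw [inv_pow, div_eq_mul_inv]
  have hmem : ∀ n, x ∈ pw β (pr ε n) '' Icc 0 (R β m) ↔
      (∑ i ∈ Finset.range n, ((ε i : ℕ) : ℝ) / β ^ (i + 1)) ≤ x ∧
      x ≤ (∑ i ∈ Finset.range n, ((ε i : ℕ) : ℝ) / β ^ (i + 1)) + R β m / β ^ n := by
    intro n
    have hbn : 0 < β ^ n := pow_pos hb n
    rw [mem_image_pw h]
    unfold tw
    rw [pw_pr h, pr_length, mem_Icc]
    constructor
    · rintro ⟨h1, h2⟩
      constructor
      · have := nonneg_of_mul_nonneg_left h1 hbn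
        linarith
      · rw [← le_div_iff₀ hbn] at h2; linarith
    · rintro ⟨h1, h2⟩
      constructor
      · exact mul_nonneg (by linarith) hbn.le
      · rw [← le_div_iff₀ hbn]; linarith
  constructor
  · intro hE
    rw [hasSum_iff_tendsto_nat_of_nonneg hnn]
    have h1 : ∀ n, x - R β m / β ^ n ≤ ∑ i ∈ Finset.range n, ((ε i : ℕ) : ℝ) / β ^ (i + 1) := by
      intro n
      have := ((hmem n).mp (hE n)).2
      linarith
    have h2 : ∀ n, ∑ i ∈ Finset.range n, ((ε i : ℕ) : ℝ) / β ^ (i + 1) ≤ x :=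
      fun n => ((hmem n).mp (hE n)).1
    refine tendsto_of_tendsto_of_tendsto_of_le_of_le ?_ tendsto_const_nhds h1 h2
    have := (tendsto_const_nhds (x := x)).sub hR
    rwa [sub_zero] at this
  · intro hs n
    rw [hmem]
    constructor
    · exact sum_le_hasSum _ (fun i _ => hnn i) hs
    · have hanti : Antitone (fun n => (∑ i ∈ Finset.range n, ((ε i : ℕ) : ℝ) / β ^ (i + 1)) +
          R β m / β ^ n) := by
        apply antitone_nat_of_succ_le
        intro k
        rw [Finset.sum_range_succ]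
        have hd : ((ε k : ℕ) : ℝ) ≤ m := by exact_mod_cast Nat.lt_succ_iff.mp (ε k).2
        have hbk : 0 < β ^ (k + 1) := pow_pos hb _
        have e1 : R β m / β ^ k = ((m : ℝ) + R β m) / β ^ (k + 1) := by
          rw [pow_succ, div_mul_eq_div_div, div_right_comm, h.R_eq]
        rw [e1, add_assoc, ← add_div]
        gcongr
      have ht := (hs.tendsto_sum_nat).add hR
      rw [add_zero] at ht
      exact hanti.le_of_tendsto ht n

lemma ct_pr (ε : ℕ → Fin (m + 1)) (d : Fin (m + 1)) (n : ℕ) :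
    ct d (pr ε n) = (((Finset.range n).filter (fun i => ε i = d)).card : ℝ) := by
  induction n with
  | zero => simp [pr, ct]
  | succ n ih =>
    rw [pr_succ, ct_append, ih, Finset.range_add_one, Finset.filter_insert]
    by_cases hd : ε n = d
    · rw [if_pos hd, Finset.card_insert_of_notMem (by simp)]
      simp [ct, hd]
    · rw [if_neg hd]
      simp [ct, hd]

/-- proportion of the digit `d` among the first `n` digits -/
noncomputable def prop (ε : ℕ → Fin (m + 1)) (d : Fin (m + 1)) (n : ℕ) : ℝ :=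
  (((Finset.range n).filter (fun i => ε i = d)).card : ℝ) / n

lemma prop_nonneg (ε : ℕ → Fin (m + 1)) (d : Fin (m + 1)) (n : ℕ) : 0 ≤ prop ε d n := by
  unfold prop; positivity

lemma prop_le_one (ε : ℕ → Fin (m + 1)) (d : Fin (m + 1)) (n : ℕ) : prop ε d n ≤ 1 := by
  unfold prop
  apply div_le_one_of_le₀ _ (Nat.cast_nonneg _)
  have := Finset.card_filter_le (Finset.range n) (fun i => ε i = d)
  rw [Finset.card_range] at this
  exact_mod_cast this

lemma limsup_eq_iff {f : ℕ → ℝ} (h0 : ∀ n, 0 ≤ f n) (h1 : ∀ n, f n ≤ 1) (p : ℝ) :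
    limsup f atTop = p ↔ (∀ e > 0, ∀ᶠ n in atTop, f n ≤ p + e) ∧
      (∀ e > 0, ∃ᶠ n in atTop, p - e ≤ f n) := by
  have hb : IsBoundedUnder (· ≤ ·) atTop f := isBoundedUnder_of ⟨1, h1⟩
  have hb' : IsCoboundedUnder (· ≤ ·) atTop f :=
    (isBoundedUnder_of ⟨0, h0⟩ : IsBoundedUnder (· ≥ ·) atTop f).isCoboundedUnder_le
  constructor
  · rintro rfl
    constructor
    · intro e he
      exact (eventually_lt_of_limsup_lt (b := limsup f atTop + e) (by linarith) hb).mono
        fun n hn => hn.le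
    · intro e he
      exact (frequently_lt_of_lt_limsup hb' (b := limsup f atTop - e) (by linarith)).mono
        fun n hn => hn.le
  · rintro ⟨h2, h3⟩
    apply le_antisymm
    · apply le_of_forall_pos_le_add
      intro e he
      exact limsup_le_of_le hb' (h2 e he)
    · apply le_of_forall_pos_sub_le
      intro e he
      exact le_limsup_of_frequently_le (h3 e he) hb

lemma liminf_eq_iff {f : ℕ → ℝ} (h0 : ∀ n, 0 ≤ f n) (h1 : ∀ n, f n ≤ 1) (p : ℝ) :
    liminf f atTop = p ↔ (∀ e > 0, ∀ᶠ n in atTop, p - e ≤ f n) ∧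
      (∀ e > 0, ∃ᶠ n in atTop, f n ≤ p + e) := by
  have hb : IsBoundedUnder (· ≥ ·) atTop f := isBoundedUnder_of ⟨0, h0⟩
  have hb' : IsCoboundedUnder (· ≥ ·) atTop f :=
    (isBoundedUnder_of ⟨1, h1⟩ : IsBoundedUnder (· ≤ ·) atTop f).isCoboundedUnder_ge
  constructor
  · rintro rfl
    constructor
    · intro e he
      exact (eventually_lt_of_lt_liminf (b := liminf f atTop - e) (by linarith) hb).mono
        fun n hn => hn.le
    · intro e he
      exact (frequently_lt_of_liminf_lt hb' (b := liminf f atTop + e) (by linarith)).mono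
        fun n hn => hn.le
  · rintro ⟨h2, h3⟩
    apply le_antisymm
    · apply le_of_forall_pos_le_add
      intro e he
      exact liminf_le_of_frequently_le (h3 e he) hb
    · apply le_of_forall_pos_sub_le
      intro e he
      exact le_liminf_of_le hb' (h2 e he)

lemma FF_iff (pb pu : Fin (m + 1) → ℝ) (ε : ℕ → Fin (m + 1)) :
    FF pb pu ε ↔ ∀ d, limsup (prop ε d) atTop = pb d ∧ liminf (prop ε d) atTop = pu d := by
  have hle : ∀ (d : Fin (m + 1)) (n : ℕ) (c : ℝ), 1 ≤ n → (prop ε d n ≤ c ↔ ct d (pr ε n) ≤ c * n) := by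
    intro d n c hn
    have hn' : (0:ℝ) < n := by exact_mod_cast hn
    unfold prop
    rw [div_le_iff₀ hn', ct_pr]
  have hge : ∀ (d : Fin (m + 1)) (n : ℕ) (c : ℝ), 1 ≤ n → (c ≤ prop ε d n ↔ c * n ≤ ct d (pr ε n)) := by
    intro d n c hn
    have hn' : (0:ℝ) < n := by exact_mod_cast hn
    unfold prop
    rw [le_div_iff₀ hn', ct_pr]
  constructor
  · intro h d
    rw [limsup_eq_iff (prop_nonneg ε d) (prop_le_one ε d),
      liminf_eq_iff (prop_nonneg ε d) (prop_le_one ε d)]
    refine ⟨⟨?_, ?_⟩, ?_, ?_⟩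
    · intro e he
      obtain ⟨N, hN⟩ := h.up d e he
      filter_upwards [eventually_ge_atTop N, eventually_ge_atTop 1] with n hn hn1
      rw [hle d n _ hn1]; exact hN n hn
    · intro e he
      rw [frequently_atTop]
      intro N
      obtain ⟨k, hk, hk'⟩ := h.hu d e he (max N 1)
      exact ⟨k, (le_max_left _ _).trans hk, (hge d k _ ((le_max_right _ _).trans hk)).mpr hk'⟩
    · intro e he
      obtain ⟨N, hN⟩ := h.lo d e he
      filter_upwards [eventually_ge_atTop N, eventually_ge_atTop 1] with n hn hn1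
      rw [hge d n _ hn1]; exact hN n hn
    · intro e he
      rw [frequently_atTop]
      intro N
      obtain ⟨k, hk, hk'⟩ := h.hl d e he (max N 1)
      exact ⟨k, (le_max_left _ _).trans hk, (hle d k _ ((le_max_right _ _).trans hk)).mpr hk'⟩
  · intro h
    have h' : ∀ d, ((∀ e > 0, ∀ᶠ n in atTop, prop ε d n ≤ pb d + e) ∧
      (∀ e > 0, ∃ᶠ n in atTop, pb d - e ≤ prop ε d n)) ∧
      ((∀ e > 0, ∀ᶠ n in atTop, pu d - e ≤ prop ε d n) ∧
      (∀ e > 0, ∃ᶠ n in atTop, prop ε d n ≤ pu d + e)) := fun d =>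
      ⟨(limsup_eq_iff (prop_nonneg ε d) (prop_le_one ε d) _).mp (h d).1,
        (liminf_eq_iff (prop_nonneg ε d) (prop_le_one ε d) _).mp (h d).2⟩
    refine ⟨?_, ?_, ?_, ?_⟩
    · intro d e he
      obtain ⟨N, hN⟩ := eventually_atTop.mp ((h' d).1.1 e he)
      refine ⟨max N 1, fun k hk => ?_⟩
      exact (hle d k _ ((le_max_right _ _).trans hk)).mp (hN k ((le_max_left _ _).trans hk))
    · intro d e he
      obtain ⟨N, hN⟩ := eventually_atTop.mp ((h' d).2.1 e he)
      refine ⟨max N 1, fun k hk => ?_⟩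
      exact (hge d k _ ((le_max_right _ _).trans hk)).mp (hN k ((le_max_left _ _).trans hk))
    · intro d e he N
      obtain ⟨k, hk, hk'⟩ := (frequently_atTop.mp ((h' d).1.2 e he)) (max N 1)
      exact ⟨k, (le_max_left _ _).trans hk, (hge d k _ ((le_max_right _ _).trans hk)).mp hk'⟩
    · intro d e he N
      obtain ⟨k, hk, hk'⟩ := (frequently_atTop.mp ((h' d).2.2 e he)) (max N 1)
      exact ⟨k, (le_max_left _ _).trans hk, (hle d k _ ((le_max_right _ _).trans hk)).mp hk'⟩

lemma hyp_floor (hβ : 1 < β) : Hyp β ⌊β⌋₊ :=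
  ⟨hβ, Nat.lt_floor_add_one β⟩

lemma mk_continuum (h : Hyp β m) {S : Set (ℕ → Fin (m + 1))} {F : (ℕ → Bool) → (ℕ → Fin (m + 1))}
    (hF : Function.Injective F) (hS : ∀ c, F c ∈ S) : Cardinal.mk S = Cardinal.continuum := by
  apply le_antisymm
  · refine (Cardinal.mk_set_le S).trans ?_
    have hm : 0 < m := by exact_mod_cast h.m_pos
    rw [← Cardinal.power_def, Cardinal.mk_fin, Cardinal.mk_nat, Cardinal.nat_power_aleph0 (by omega)]
  · have h1 : Cardinal.mk (ℕ → Bool) = Cardinal.continuum := by simp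
    rw [← h1]
    exact Cardinal.mk_le_of_injective (f := fun c => (⟨F c, hS c⟩ : S))
      (fun a b hab => hF (congrArg Subtype.val hab))

end Pool.Agent.X86.FR
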