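import Pool.Agent.X86.FR.Greedy

/-! good greedy and lazy words -/

set_option autoImplicit false

open Set Filter Topology MeasureTheory
open scoped ENNReal NNReal

namespace Pool.Agent.X86.FR

variable {m : ℕ} {β : ℝ}

/-- indicator weight -/
noncomputable def ind (d : Fin (m + 1)) (a : Fin (m + 1)) : ℝ := if a = d then 1 else 0

lemma ind_abs (d a : Fin (m + 1)) : |ind d a| ≤ 1 := by
  unfold ind; split_ifs <;> simp

lemma cz_sub (f k : Fin (m + 1) → ℝ) (c r : ℝ) :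
    cz β m (fun a => f a - c * k a) r = cz β m f r - c * cz β m k r := by
  unfold cz
  rw [Finset.sum_sub_distrib, ← Finset.mul_sum]
  ring

lemma ps_sub (h : Hyp β m) {f k : Fin (m + 1) → ℝ} (hf : ∀ a, |f a| ≤ 1) (hk : ∀ a, |k a| ≤ 1)
    (c : ℝ) {r : ℝ} (hr : r ∈ Ioc 0 (R β m)) :
    ps β m (fun a => f a - c * k a) r = ps β m f r - c * ps β m k r := by
  unfold ps
  rw [← tsum_mul_left, ← (ps_summable h hf hr).tsum_sub ((ps_summable h hk hr).mul_left c)]
  congr 1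
  funext j
  rw [cz_sub]
  ring

lemma cz_nonneg (h : Hyp β m) {f : Fin (m + 1) → ℝ} (hf : ∀ a, 0 ≤ f a) {r : ℝ}
    (hr : r ∈ Ioc 0 (R β m)) : 0 ≤ cz β m f r :=
  add_nonneg (Finset.sum_nonneg fun a _ => hf a) (mul_nonneg (hf _) (rr_mem h hr).1.le)

lemma cz_mono (h : Hyp β m) {f k : Fin (m + 1) → ℝ} (hf : ∀ a, f a ≤ k a) {r : ℝ}
    (hr : r ∈ Ioc 0 (R β m)) : cz β m f r ≤ cz β m k r :=
  add_le_add (Finset.sum_le_sum fun a _ => hf a)
    (mul_le_mul_of_nonneg_right (hf _) (rr_mem h hr).1.le)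

lemma cz_one (r : ℝ) : cz β m (fun _ => 1) r = β * r := by
  unfold cz
  rw [Finset.sum_const, card_lowD, nsmul_eq_mul, mul_one, one_mul, tt_add]

/-- frequencies -/
noncomputable def gg (β : ℝ) (m : ℕ) (d : Fin (m + 1)) : ℝ :=
  ps β m (ind d) 1 / ps β m (fun _ => 1) 1

lemma ps_one_pos (h : Hyp β m) : 0 < ps β m (fun _ => 1) 1 := by
  have hb := h.pos
  have h1 : (1:ℝ) ∈ Ioc 0 (R β m) := ⟨one_pos, h.R_one⟩
  have hs := ps_summable h (z := fun _ => 1) (by simp) h1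
  unfold ps
  refine hs.tsum_pos (fun j => ?_) 0 ?_
  · exact div_nonneg (cz_nonneg h (fun _ => zero_le_one) (orb_mem h h1 j)) (pow_pos hb _).le
  · rw [cz_one]
    have := (orb_mem h h1 0).1
    positivity

lemma gg_mem (h : Hyp β m) (d : Fin (m + 1)) : gg β m d ∈ Icc (0:ℝ) 1 := by
  have hb := h.pos
  have h1 : (1:ℝ) ∈ Ioc 0 (R β m) := ⟨one_pos, h.R_one⟩
  have hp := ps_one_pos h
  unfold gg
  constructor
  · apply div_nonneg _ hp.le
    unfold ps
    refine tsum_nonneg fun j => ?_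
    refine div_nonneg (cz_nonneg h (fun a => ?_) (orb_mem h h1 j)) (pow_pos hb _).le
    unfold ind; split_ifs <;> norm_num
  · rw [div_le_one hp]
    unfold ps
    refine (ps_summable h (ind_abs d) h1).tsum_le_tsum (fun j => ?_)
      (ps_summable h (z := fun _ => 1) (by simp) h1)
    refine div_le_div_of_nonneg_right (cz_mono h (fun a => ?_) (orb_mem h h1 j)) (pow_pos hb _).le
    unfold ind; split_ifs <;> norm_num

/-- centred weight -/
noncomputable def zd (β : ℝ) (m : ℕ) (d : Fin (m + 1)) (a : Fin (m + 1)) : ℝ :=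
  ind d a - gg β m d * 1

lemma zd_abs (h : Hyp β m) (d a : Fin (m + 1)) : |zd β m d a| ≤ 1 := by
  have := gg_mem h d
  unfold zd ind
  rw [abs_le]
  split_ifs
  · constructor <;> linarith [this.1, this.2]
  · constructor <;> linarith [this.1, this.2]

lemma zd_ps (h : Hyp β m) (d : Fin (m + 1)) : ps β m (zd β m d) 1 = 0 := by
  have h1 : (1:ℝ) ∈ Ioc 0 (R β m) := ⟨one_pos, h.R_one⟩
  have := ps_sub h (ind_abs d) (k := fun _ => 1) (by simp) (gg β m d) h1
  have e : zd β m d = fun a => ind d a - gg β m d * (fun _ => (1:ℝ)) a := rfl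
  rw [e, this]
  unfold gg
  have hp := ps_one_pos h
  field_simp
  ring

lemma Sz_zd (d : Fin (m + 1)) (w : List (Fin (m + 1))) :
    Sz (zd β m d) w = ct d w - gg β m d * w.length := by
  induction w with
  | nil => simp [Sz, ct]
  | cons a w ih =>
    have e1 : Sz (zd β m d) (a :: w) = zd β m d a + Sz (zd β m d) w := by simp [Sz]
    have e2 : ct d (a :: w) = ct d w + ind d a := by
      unfold ct ind
      rw [List.count_cons]
      by_cases had : a = d
      · simp [had]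
      · simp [had]
    rw [e1, e2, ih, List.length_cons]
    unfold zd
    push_cast
    ring

/-- good words -/
def GW (g : Fin (m + 1) → ℝ) (δ : ℝ) (n : ℕ) : Set (List (Fin (m + 1))) :=
  {w | w.length = n ∧ ∀ d, |ct d w - g d * n| ≤ δ * n}

theorem good (h : Hyp β m) : ∃ C : ℝ, 0 ≤ C ∧ ∀ δ : ℝ, 0 < δ → ∀ n : ℕ, 1 ≤ n →
    co β m (PP β (GW (gg β m) δ n) (Icc 0 (R β m))) ≤ ENNReal.ofReal (C / (δ ^ 2 * n)) := by
  have hR := h.R_pos
  have hex : ∀ d : Fin (m + 1), ∃ C : ℝ, 0 ≤ C ∧ ∀ n : ℕ, ∀ r ∈ Ioc 0 (R β m),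
      UU β m n r (fun w => Sz (zd β m d) w ^ 2) ≤ C * (n * r + 1) :=
    fun d => v_bound h (zd_abs h d) (zd_ps h d)
  choose Cd hCd0 hCd using hex
  have hCs : 0 ≤ ∑ d, Cd d := Finset.sum_nonneg fun d _ => hCd0 d
  refine ⟨(∑ d, Cd d) * (R β m + 1), by positivity, fun δ hδ n hn => ?_⟩
  have hn' : (0:ℝ) < n := by exact_mod_cast hn
  have hn1 : (1:ℝ) ≤ n := by exact_mod_cast hn
  set f : List (Fin (m + 1)) → ℝ := fun w => (1 / (δ * n) ^ 2) * ∑ d, Sz (zd β m d) w ^ 2 with hf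
  have hf0 : ∀ w, 0 ≤ f w := fun w =>
    mul_nonneg (by positivity) (Finset.sum_nonneg fun d _ => sq_nonneg _)
  have hRm : R β m ∈ Ioc 0 (R β m) := ⟨hR, le_rfl⟩
  have hb := (bad h n hRm hf0).2
  have hU : UU β m n (R β m) f ≤ (∑ d, Cd d) * (R β m + 1) / (δ ^ 2 * n) := by
    rw [hf, UU_mul, UU_sum]
    calc 1 / (δ * n) ^ 2 * ∑ d, UU β m n (R β m) (fun w => Sz (zd β m d) w ^ 2)
        ≤ 1 / (δ * n) ^ 2 * ∑ d, Cd d * (n * R β m + 1) := by
          gcongr with d _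
          exact hCd d n _ hRm
      _ = 1 / (δ * n) ^ 2 * ((∑ d, Cd d) * (n * R β m + 1)) := by rw [Finset.sum_mul]
      _ ≤ 1 / (δ * n) ^ 2 * ((∑ d, Cd d) * (n * (R β m + 1))) := by
          gcongr
          nlinarith
      _ = _ := by field_simp
  have hsub : Icc 0 (R β m) \ PP β (GW (gg β m) δ n) (Icc 0 (R β m)) ⊆
      (Ico 0 (R β m) \ PP β {w : List (Fin (m + 1)) | w.length = n ∧ f w < 1} (Icc 0 (R β m))) ∪
      {R β m} := by
    rintro x ⟨hx, hxP⟩
    rcases eq_or_lt_of_le hx.2 with he | hlt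
    · right; exact he
    · left
      refine ⟨⟨hx.1, hlt⟩, fun hmem => hxP ?_⟩
      unfold PP at hmem ⊢
      simp only [mem_iUnion, exists_prop] at hmem ⊢
      obtain ⟨w, ⟨hw1, hw2⟩, hw3⟩ := hmem
      refine ⟨w, ⟨hw1, fun d => ?_⟩, hw3⟩
      have hdn : 0 < δ * n := by positivity
      have h1 : Sz (zd β m d) w ^ 2 ≤ (δ * n) ^ 2 := by
        have h2 : Sz (zd β m d) w ^ 2 ≤ ∑ d, Sz (zd β m d) w ^ 2 :=
          Finset.single_le_sum (f := fun d => Sz (zd β m d) w ^ 2) (fun d _ => sq_nonneg _)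
            (Finset.mem_univ d)
        have h3 : ∑ d, Sz (zd β m d) w ^ 2 < (δ * n) ^ 2 := by
          simp only [hf] at hw2
          rw [one_div, inv_mul_eq_div, div_lt_one (by positivity)] at hw2
          exact hw2
        linarith
      rw [Sz_zd, hw1] at h1
      exact abs_le_of_sq_le_sq h1 hdn.le
  unfold co
  refine (measure_mono hsub).trans ((measure_union_le _ _).trans ?_)
  rw [Real.volume_singleton, add_zero]
  exact hb.trans (ENNReal.ofReal_le_ofReal hU)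

/-- reflection of words -/
def rf (w : List (Fin (m + 1))) : List (Fin (m + 1)) := w.map Fin.rev

lemma rf_length (w : List (Fin (m + 1))) : (rf w).length = w.length := by simp [rf]

lemma pw_rf (h : Hyp β m) (w : List (Fin (m + 1))) (y : ℝ) :
    pw β (rf w) (R β m - y) = R β m - pw β w y := by
  have hb := h.pos
  induction w with
  | nil => rfl
  | cons d w ih =>
    have e : rf (d :: w) = Fin.rev d :: rf w := rfl
    rw [e, pw_cons, pw_cons, ih]
    have h1 : ((Fin.rev d : ℕ) : ℝ) = m - ((d : ℕ) : ℝ) := by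
      rw [Fin.val_rev, Nat.cast_sub (by omega)]
      push_cast; ring
    have h2 := h.R_eq
    rw [div_eq_iff hb.ne'] at h2
    rw [h1]
    field_simp
    linarith

lemma PP_rf (h : Hyp β m) (W : Set (List (Fin (m + 1)))) :
    PP β (rf '' W) (Icc 0 (R β m)) = (fun x => R β m - x) '' PP β W (Icc 0 (R β m)) := by
  ext x
  unfold PP
  simp only [mem_iUnion, exists_prop, mem_image]
  constructor
  · rintro ⟨_, ⟨w, hw, rfl⟩, y, hy, rfl⟩
    refine ⟨pw β w (R β m - y), ⟨w, hw, _, ⟨?_, ?_⟩, rfl⟩, ?_⟩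
    · linarith [hy.2]
    · linarith [hy.1]
    · rw [← pw_rf h]; congr 1; ring
  · rintro ⟨_, ⟨w, hw, y, hy, rfl⟩, rfl⟩
    refine ⟨rf w, ⟨w, hw, rfl⟩, R β m - y, ⟨?_, ?_⟩, pw_rf h w y⟩
    · linarith [hy.2]
    · linarith [hy.1]

lemma co_rf (h : Hyp β m) (W : Set (List (Fin (m + 1)))) :
    co β m (PP β (rf '' W) (Icc 0 (R β m))) = co β m (PP β W (Icc 0 (R β m))) := by
  unfold co
  rw [PP_rf h]
  have e : Icc 0 (R β m) \ (fun x => R β m - x) '' PP β W (Icc 0 (R β m)) =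
      (fun x => R β m - x) ⁻¹' (Icc 0 (R β m) \ PP β W (Icc 0 (R β m))) := by
    ext x
    simp only [Set.mem_sdiff, mem_image, mem_preimage, mem_Icc, not_exists, not_and]
    constructor
    · rintro ⟨⟨h1, h2⟩, h3⟩
      exact ⟨⟨by linarith, by linarith⟩, fun h4 => h3 _ h4 (by ring)⟩
    · rintro ⟨⟨h1, h2⟩, h3⟩
      refine ⟨⟨by linarith, by linarith⟩, fun y hy hyx => h3 ?_⟩
      rw [← hyx]
      convert hy using 1
      ring
  rw [e]
  have := Measure.measurePreserving_sub_left (volume : Measure ℝ) (R β m)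
  exact this.measure_preimage_emb (Homeomorph.subLeft (R β m)).measurableEmbedding _

lemma ct_rf (d : Fin (m + 1)) (w : List (Fin (m + 1))) : ct d (rf w) = ct (Fin.rev d) w := by
  induction w with
  | nil => simp [rf, ct]
  | cons a w ih =>
    have e : rf (a :: w) = Fin.rev a :: rf w := rfl
    have e1 : ∀ (d b : Fin (m + 1)) (v : List (Fin (m + 1))), ct d (b :: v) = ct d v +
        if b = d then 1 else 0 := by
      intro d b v
      unfold ct
      rw [List.count_cons]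
      by_cases had : b = d
      · simp [had]
      · simp [had]
    rw [e, e1, e1, ih]
    congr 1
    have : (Fin.rev a = d) ↔ (a = Fin.rev d) := by
      constructor
      · rintro rfl; simp
      · rintro rfl; simp
    simp only [this]

/-- symmetric words: a greedy half and a lazy half -/
def BW (g : Fin (m + 1) → ℝ) (δ : ℝ) (n : ℕ) : Set (List (Fin (m + 1))) :=
  {w | ∃ u ∈ GW g δ n, ∃ v ∈ GW g δ n, w = u ++ rf v}

lemma BW_length {g : Fin (m + 1) → ℝ} {δ : ℝ} {n : ℕ} {w : List (Fin (m + 1))}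
    (hw : w ∈ BW g δ n) : w.length = 2 * n := by
  obtain ⟨u, hu, v, hv, rfl⟩ := hw
  rw [List.length_append, rf_length, hu.1, hv.1]; ring

lemma BW_ct {g : Fin (m + 1) → ℝ} {δ : ℝ} {n : ℕ} {w : List (Fin (m + 1))}
    (hw : w ∈ BW g δ n) (d : Fin (m + 1)) :
    |ct d w - ((g d + g (Fin.rev d)) / 2) * (2 * n)| ≤ 2 * δ * n := by
  obtain ⟨u, hu, v, hv, rfl⟩ := hw
  rw [ct_append, ct_rf]
  have h1 := hu.2 d
  have h2 := hv.2 (Fin.rev d)
  have e : ct d u + ct (Fin.rev d) v - ((g d + g (Fin.rev d)) / 2) * (2 * n) =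
      (ct d u - g d * n) + (ct (Fin.rev d) v - g (Fin.rev d) * n) := by ring
  rw [e]
  refine (abs_add_le _ _).trans ?_
  linarith

lemma BW_co (h : Hyp β m) (g : Fin (m + 1) → ℝ) (δ : ℝ) (n : ℕ) :
    co β m (PP β (BW g δ n) (Icc 0 (R β m))) ≤ 5 * co β m (PP β (GW g δ n) (Icc 0 (R β m))) := by
  have e : PP β (BW g δ n) (Icc 0 (R β m)) = PP β (GW g δ n) (PP β (rf '' GW g δ n)
      (Icc 0 (R β m))) := by
    ext x
    unfold PP
    simp only [mem_iUnion, exists_prop]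
    constructor
    · rintro ⟨_, ⟨u, hu, v, hv, rfl⟩, y, hy, rfl⟩
      refine ⟨u, hu, pw β (rf v) y, ?_, (pw_append _ _ _).symm⟩
      simp only [mem_iUnion, exists_prop]
      exact ⟨rf v, ⟨v, hv, rfl⟩, y, hy, rfl⟩
    · rintro ⟨u, hu, z, hz, rfl⟩
      simp only [mem_iUnion, exists_prop] at hz
      obtain ⟨_, ⟨v, hv, rfl⟩, y, hy, rfl⟩ := hz
      exact ⟨u ++ rf v, ⟨u, hu, v, hv, rfl⟩, y, hy, pw_append _ _ _⟩
  rw [e]
  have h1 := cover h n (GW g δ n) (fun w hw => hw.1) (PP β (rf '' GW g δ n) (Icc 0 (R β m)))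
  rw [co_rf h] at h1
  refine h1.trans (le_of_eq ?_)
  unfold PP
  ring

end Pool.Agent.X86.FR
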