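import Pool.Agent.X86.FR.Stage

/-! second moments along greedy words -/

set_option autoImplicit false

open Set Filter Topology MeasureTheory
open scoped ENNReal NNReal

namespace Pool.Agent.X86.FR

variable {m : ℕ} {β : ℝ}

/-- the largest digit used from the state `r` -/
noncomputable def tt (β : ℝ) (m : ℕ) (r : ℝ) : ℕ := min m (⌈β * r⌉₊ - 1)

lemma tt_le (r : ℝ) : tt β m r ≤ m := min_le_left _ _

/-- the digit -/
noncomputable def td (β : ℝ) (m : ℕ) (r : ℝ) : Fin (m + 1) := ⟨tt β m r, Nat.lt_succ_of_le (tt_le r)⟩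

/-- the next state -/
noncomputable def rr (β : ℝ) (m : ℕ) (r : ℝ) : ℝ := β * r - tt β m r

lemma rr_mem (h : Hyp β m) {r : ℝ} (hr : r ∈ Ioc 0 (R β m)) : rr β m r ∈ Ioc 0 (R β m) := by
  have hb := h.pos
  have hbr : 0 < β * r := mul_pos hb hr.1
  have hc : 0 < ⌈β * r⌉₊ := Nat.ceil_pos.mpr hbr
  have h1 : ((⌈β * r⌉₊ - 1 : ℕ) : ℝ) < β * r := by
    rw [Nat.cast_sub hc]
    have := Nat.ceil_lt_add_one hbr.le
    push_cast; linarith
  have h2 : β * r ≤ ((⌈β * r⌉₊ - 1 : ℕ) : ℝ) + 1 := by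
    rw [Nat.cast_sub hc]
    have := Nat.le_ceil (β * r)
    push_cast; linarith
  unfold rr tt
  constructor
  · have : ((min m (⌈β * r⌉₊ - 1) : ℕ) : ℝ) ≤ ((⌈β * r⌉₊ - 1 : ℕ) : ℝ) := by
      exact_mod_cast min_le_right _ _
    linarith
  · rcases le_total m (⌈β * r⌉₊ - 1) with hle | hle
    · rw [min_eq_left hle]
      have h3 : β * r ≤ β * R β m := mul_le_mul_of_nonneg_left hr.2 hb.le
      have h4 := h.R_eq
      rw [div_eq_iff hb.ne'] at h4
      linarith
    · rw [min_eq_right hle]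
      have := h.R_one
      linarith

lemma tt_add (r : ℝ) : (tt β m r : ℝ) + rr β m r = β * r := by unfold rr; ring

/-- the digits below -/
noncomputable def lowD (β : ℝ) (m : ℕ) (r : ℝ) : Finset (Fin (m + 1)) :=
  Finset.univ.filter (fun a => (a : ℕ) < tt β m r)

lemma card_lowD (r : ℝ) : (lowD β m r).card = tt β m r := by
  have h := tt_le (β := β) (m := m) r
  unfold lowD
  have : (Finset.univ.filter (fun a : Fin (m + 1) => (a : ℕ) < tt β m r)) =
      Finset.Iio (td β m r) := by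
    ext a
    simp [td, Fin.lt_def]
  rw [this, Fin.card_Iio]
  rfl

/-- the weighted sum over greedy words -/
noncomputable def UU (β : ℝ) (m : ℕ) : ℕ → ℝ → (List (Fin (m + 1)) → ℝ) → ℝ
  | 0, r, f => r * f []
  | n + 1, r, f => (∑ a ∈ lowD β m r, UU β m n 1 (fun w => f (a :: w)) +
      UU β m n (rr β m r) (fun w => f (td β m r :: w))) / β

lemma UU_add (n : ℕ) (r : ℝ) (f g : List (Fin (m + 1)) → ℝ) :
    UU β m n r (fun w => f w + g w) = UU β m n r f + UU β m n r g := by
  induction n generalizing r f g with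
  | zero => simp only [UU]; ring
  | succ n ih =>
    simp only [UU]
    simp_rw [ih]
    rw [Finset.sum_add_distrib]
    ring

lemma UU_mul (n : ℕ) (r c : ℝ) (f : List (Fin (m + 1)) → ℝ) :
    UU β m n r (fun w => c * f w) = c * UU β m n r f := by
  induction n generalizing r f with
  | zero => simp only [UU]; ring
  | succ n ih =>
    simp only [UU]
    simp_rw [ih]
    rw [← Finset.mul_sum]
    ring

lemma UU_one (h : Hyp β m) (n : ℕ) (r : ℝ) : UU β m n r (fun _ => 1) = r := by
  induction n generalizing r with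
  | zero => simp [UU]
  | succ n ih =>
    have hb := h.pos
    simp only [UU]
    rw [Finset.sum_congr rfl (fun a _ => ih 1), ih, Finset.sum_const, card_lowD, nsmul_eq_mul,
      mul_one, tt_add]
    field_simp

lemma UU_const (h : Hyp β m) (n : ℕ) (r c : ℝ) : UU β m n r (fun _ => c) = c * r := by
  have := UU_mul (β := β) (m := m) n r c (fun _ => 1)
  rw [UU_one h] at this
  simpa using this

lemma UU_sum (n : ℕ) (r : ℝ) {ι : Type*} (s : Finset ι) (f : ι → List (Fin (m + 1)) → ℝ) :
    UU β m n r (fun w => ∑ i ∈ s, f i w) = ∑ i ∈ s, UU β m n r (f i) := by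
  classical
  induction s using Finset.induction_on with
  | empty =>
    simp only [Finset.sum_empty]
    have := UU_mul (β := β) (m := m) n r 0 (fun _ => 1)
    simpa using this
  | insert a s ha ih =>
    simp_rw [Finset.sum_insert ha]
    rw [UU_add, ih]

/-- the bad set has a small measure -/
lemma bad (h : Hyp β m) (n : ℕ) {r : ℝ} (hr : r ∈ Ioc 0 (R β m)) {f : List (Fin (m + 1)) → ℝ}
    (hf : ∀ w, 0 ≤ f w) :
    0 ≤ UU β m n r f ∧
    volume (Ico 0 r \ PP β {w : List (Fin (m + 1)) | w.length = n ∧ f w < 1} (Icc 0 (R β m))) ≤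
      ENNReal.ofReal (UU β m n r f) := by
  classical
  induction n generalizing r f with
  | zero =>
    refine ⟨mul_nonneg hr.1.le (hf _), ?_⟩
    by_cases h1 : f [] < 1
    · have : Ico 0 r \ PP β {w : List (Fin (m + 1)) | w.length = 0 ∧ f w < 1}
          (Icc 0 (R β m)) = ∅ := by
        rw [sdiff_eq_empty]
        intro x hx
        unfold PP
        simp only [mem_iUnion, exists_prop]
        exact ⟨[], ⟨rfl, h1⟩, x, ⟨hx.1, hx.2.le.trans hr.2⟩, rfl⟩
      rw [this]; simp
    · push Not at h1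
      refine (measure_mono sdiff_subset).trans ?_
      rw [Real.volume_Ico, sub_zero]
      apply ENNReal.ofReal_le_ofReal
      unfold UU
      nlinarith [hr.1]
  | succ n ih =>
    have hb := h.pos
    have h1R : (1:ℝ) ∈ Ioc 0 (R β m) := ⟨one_pos, h.R_one⟩
    have hr' := rr_mem h hr
    have hterm : ∀ a : Fin (m + 1), 0 ≤ UU β m n 1 (fun w => f (a :: w)) ∧ _ := fun a =>
      ih h1R (f := fun w => f (a :: w)) (fun w => hf _)
    have hlast := ih hr' (f := fun w => f (td β m r :: w)) (fun w => hf _)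
    have hsum : 0 ≤ ∑ a ∈ lowD β m r, UU β m n 1 (fun w => f (a :: w)) :=
      Finset.sum_nonneg fun a _ => (hterm a).1
    refine ⟨div_nonneg (add_nonneg hsum hlast.1) hb.le, ?_⟩
    have hsub : Ico 0 r \ PP β {w : List (Fin (m + 1)) | w.length = n + 1 ∧ f w < 1}
        (Icc 0 (R β m)) ⊆
        (⋃ a ∈ lowD β m r, pw β [a] '' (Ico 0 1 \
          PP β {w : List (Fin (m + 1)) | w.length = n ∧ f (a :: w) < 1} (Icc 0 (R β m)))) ∪
        pw β [td β m r] '' (Ico 0 (rr β m r) \
          PP β {w : List (Fin (m + 1)) | w.length = n ∧ f (td β m r :: w) < 1}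
            (Icc 0 (R β m))) := by
      rintro x ⟨hx, hxP⟩
      have hx0 : 0 ≤ β * x := mul_nonneg hb.le hx.1
      have hkey : ∀ (a : Fin (m + 1)), x = pw β [a] (β * x - ((a : ℕ) : ℝ)) := by
        intro a
        simp only [pw_cons, pw_nil]
        field_simp
        ring
      have hnot : ∀ a : Fin (m + 1), β * x - ((a : ℕ) : ℝ) ∉
          PP β {w : List (Fin (m + 1)) | w.length = n ∧ f (a :: w) < 1} (Icc 0 (R β m)) := by
        intro a hmem
        apply hxP
        unfold PP at hmem ⊢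
        simp only [mem_iUnion, exists_prop] at hmem ⊢
        obtain ⟨w, ⟨hw1, hw2⟩, y, hy, hyx⟩ := hmem
        refine ⟨a :: w, ⟨by simp [hw1], hw2⟩, y, hy, ?_⟩
        rw [hkey a, ← hyx]
        rfl
      by_cases hc : β * x < tt β m r
      · left
        have hfl : ⌊β * x⌋₊ < tt β m r := by
          rw [Nat.floor_lt hx0]; exact hc
        have hlt : ⌊β * x⌋₊ < m + 1 := by have := tt_le (β := β) (m := m) r; omega
        simp only [mem_iUnion, exists_prop]
        refine ⟨⟨⌊β * x⌋₊, hlt⟩, by simp [lowD, hfl], _, ⟨⟨?_, ?_⟩, hnot _⟩, (hkey _).symm⟩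
        · simp only; have := Nat.floor_le hx0; linarith
        · simp only; have := Nat.lt_floor_add_one (β * x); linarith
      · right
        push Not at hc
        refine ⟨_, ⟨⟨?_, ?_⟩, hnot _⟩, (hkey _).symm⟩
        · simp only [td]; linarith
        · simp only [td]
          have : β * x < β * r := mul_lt_mul_of_pos_left hx.2 hb
          unfold rr
          linarith
    refine (measure_mono hsub).trans ((measure_union_le _ _).trans ?_)
    have hvol : ∀ (a : Fin (m + 1)) (A : Set ℝ) (u : ℝ), 0 ≤ u → volume A ≤ ENNReal.ofReal u →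
        volume (pw β [a] '' A) ≤ ENNReal.ofReal (u / β) := by
      intro a A u hu hA
      rw [volume_image_pw h]
      simp only [List.length_cons, List.length_nil, zero_add, pow_one]
      calc ENNReal.ofReal β⁻¹ * volume A ≤ ENNReal.ofReal β⁻¹ * ENNReal.ofReal u := by gcongr
        _ = ENNReal.ofReal (u / β) := by
          rw [← ENNReal.ofReal_mul (by positivity)]; congr 1; rw [inv_mul_eq_div]
    have h1 : volume (⋃ a ∈ lowD β m r, pw β [a] '' (Ico 0 1 \
          PP β {w : List (Fin (m + 1)) | w.length = n ∧ f (a :: w) < 1} (Icc 0 (R β m)))) ≤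
        ENNReal.ofReal ((∑ a ∈ lowD β m r, UU β m n 1 (fun w => f (a :: w))) / β) := by
      refine (measure_biUnion_finset_le _ _).trans ?_
      rw [Finset.sum_div, ENNReal.ofReal_sum_of_nonneg
        (fun a _ => div_nonneg (hterm a).1 hb.le)]
      exact Finset.sum_le_sum fun a _ => hvol a _ _ (hterm a).1 (hterm a).2
    have h2 := hvol (td β m r) _ _ hlast.1 hlast.2
    calc _ ≤ ENNReal.ofReal ((∑ a ∈ lowD β m r, UU β m n 1 (fun w => f (a :: w))) / β) +
          ENNReal.ofReal (UU β m n (rr β m r) (fun w => f (td β m r :: w)) / β) := add_le_add h1 h2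
      _ = _ := by
        rw [← ENNReal.ofReal_add (div_nonneg hsum hb.le) (div_nonneg hlast.1 hb.le)]
        simp only [UU]
        rw [add_div]

/-- sums of a weight along a word -/
noncomputable def Sz (z : Fin (m + 1) → ℝ) (w : List (Fin (m + 1))) : ℝ := (w.map z).sum

lemma a_succ (h : Hyp β m) (z : Fin (m + 1) → ℝ) (n : ℕ) (r : ℝ) :
    UU β m (n + 1) r (Sz z) = (∑ a ∈ lowD β m r, z a + z (td β m r) * rr β m r +
      (tt β m r * UU β m n 1 (Sz z) + UU β m n (rr β m r) (Sz z))) / β := by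
  have e : ∀ (a : Fin (m + 1)) (r : ℝ), UU β m n r (fun w => Sz z (a :: w)) =
      z a * r + UU β m n r (Sz z) := by
    intro a r
    have : (fun w => Sz z (a :: w)) = (fun w => z a + Sz z w) := by
      funext w; simp [Sz]
    rw [this, UU_add, UU_const h]
  simp only [UU]
  simp_rw [e]
  rw [Finset.sum_add_distrib, Finset.sum_const, card_lowD, nsmul_eq_mul]
  simp only [mul_one]
  ring

lemma v_succ (h : Hyp β m) (z : Fin (m + 1) → ℝ) (n : ℕ) (r : ℝ) :
    UU β m (n + 1) r (fun w => Sz z w ^ 2) = (∑ a ∈ lowD β m r, (z a ^ 2 + 2 * z a *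
      UU β m n 1 (Sz z)) + (z (td β m r) ^ 2 * rr β m r + 2 * z (td β m r) *
        UU β m n (rr β m r) (Sz z)) +
      (tt β m r * UU β m n 1 (fun w => Sz z w ^ 2) +
        UU β m n (rr β m r) (fun w => Sz z w ^ 2))) / β := by
  have e : ∀ (a : Fin (m + 1)) (r : ℝ), UU β m n r (fun w => Sz z (a :: w) ^ 2) =
      z a ^ 2 * r + 2 * z a * UU β m n r (Sz z) + UU β m n r (fun w => Sz z w ^ 2) := by
    intro a r
    have : (fun w => Sz z (a :: w) ^ 2) = (fun w => (z a ^ 2 + 2 * z a * Sz z w) + Sz z w ^ 2) := by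
      funext w; simp only [Sz, List.map_cons, List.sum_cons]; ring
    rw [this, UU_add, UU_add, UU_const h, UU_mul]
  simp only [UU]
  simp_rw [e]
  rw [Finset.sum_add_distrib, Finset.sum_const, card_lowD, nsmul_eq_mul]
  simp only [mul_one]
  ring

/-- the inhomogeneous term -/
noncomputable def cz (β : ℝ) (m : ℕ) (z : Fin (m + 1) → ℝ) (r : ℝ) : ℝ :=
  ∑ a ∈ lowD β m r, z a + z (td β m r) * rr β m r

/-- the orbit -/
noncomputable def orb (β : ℝ) (m : ℕ) (r : ℝ) (j : ℕ) : ℝ := (rr β m)^[j] r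

lemma orb_mem (h : Hyp β m) {r : ℝ} (hr : r ∈ Ioc 0 (R β m)) (j : ℕ) :
    orb β m r j ∈ Ioc 0 (R β m) := by
  induction j with
  | zero => exact hr
  | succ j ih =>
    unfold orb at ih ⊢
    rw [Function.iterate_succ_apply']
    exact rr_mem h ih

/-- the solution of the stationary equation -/
noncomputable def ps (β : ℝ) (m : ℕ) (z : Fin (m + 1) → ℝ) (r : ℝ) : ℝ :=
  ∑' j : ℕ, cz β m z (orb β m r j) / β ^ (j + 1)

lemma cz_bound (h : Hyp β m) {z : Fin (m + 1) → ℝ} (hz : ∀ a, |z a| ≤ 1) {r : ℝ}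
    (hr : r ∈ Ioc 0 (R β m)) : |cz β m z r| ≤ β * R β m := by
  have hr' := rr_mem h hr
  unfold cz
  calc |∑ a ∈ lowD β m r, z a + z (td β m r) * rr β m r|
      ≤ |∑ a ∈ lowD β m r, z a| + |z (td β m r) * rr β m r| := abs_add_le _ _
    _ ≤ (tt β m r : ℝ) + rr β m r := by
        apply add_le_add
        · refine (Finset.abs_sum_le_sum_abs _ _).trans ?_
          refine (Finset.sum_le_sum fun a _ => hz a).trans ?_
          rw [Finset.sum_const, card_lowD, nsmul_eq_mul, mul_one]
        · rw [abs_mul, abs_of_pos hr'.1]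
          calc |z (td β m r)| * rr β m r ≤ 1 * rr β m r :=
                mul_le_mul_of_nonneg_right (hz _) hr'.1.le
            _ = _ := one_mul _
    _ = β * r := tt_add r
    _ ≤ β * R β m := mul_le_mul_of_nonneg_left hr.2 h.pos.le

lemma geo (h : Hyp β m) : HasSum (fun j : ℕ => 1 / β ^ (j + 1)) (1 / (β - 1)) := by
  have h1 := h.one_lt
  have h2 : (0:ℝ) ≤ β⁻¹ := by have := h.pos; positivity
  have h3 := (hasSum_geometric_of_lt_one h2 (inv_lt_one_of_one_lt₀ h1)).mul_left β⁻¹
  have e : β⁻¹ * (1 - β⁻¹)⁻¹ = 1 / (β - 1) := by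
    have : β - 1 ≠ 0 := by linarith
    have : β ≠ 0 := by linarith
    field_simp
  rw [e] at h3
  have e2 : (fun j : ℕ => 1 / β ^ (j + 1)) = fun j : ℕ => β⁻¹ * β⁻¹ ^ j := by
    funext j
    rw [← pow_succ', inv_pow, one_div]
  rw [e2]; exact h3

lemma ps_summable (h : Hyp β m) {z : Fin (m + 1) → ℝ} (hz : ∀ a, |z a| ≤ 1) {r : ℝ}
    (hr : r ∈ Ioc 0 (R β m)) : Summable (fun j : ℕ => cz β m z (orb β m r j) / β ^ (j + 1)) := by
  have hb := h.pos
  refine Summable.of_norm_bounded (g := fun j : ℕ => β * R β m * (1 / β ^ (j + 1)))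
    ((geo h).summable.mul_left _) fun j => ?_
  rw [Real.norm_eq_abs, abs_div, abs_of_pos (pow_pos hb _), mul_one_div]
  exact div_le_div_of_nonneg_right (cz_bound h hz (orb_mem h hr j)) (pow_pos hb _).le

lemma ps_bound (h : Hyp β m) {z : Fin (m + 1) → ℝ} (hz : ∀ a, |z a| ≤ 1) {r : ℝ}
    (hr : r ∈ Ioc 0 (R β m)) : |ps β m z r| ≤ β * R β m * (1 / (β - 1)) := by
  have hb := h.pos
  have h1 : ∀ j : ℕ, ‖cz β m z (orb β m r j) / β ^ (j + 1)‖ ≤ β * R β m * (1 / β ^ (j + 1)) := by
    intro j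
    rw [Real.norm_eq_abs, abs_div, abs_of_pos (pow_pos hb _), mul_one_div]
    exact div_le_div_of_nonneg_right (cz_bound h hz (orb_mem h hr j)) (pow_pos hb _).le
  have h2 := tsum_of_norm_bounded ((geo h).mul_left (β * R β m)) h1
  rw [← Real.norm_eq_abs]
  exact h2

lemma ps_rec (h : Hyp β m) {z : Fin (m + 1) → ℝ} (hz : ∀ a, |z a| ≤ 1) {r : ℝ}
    (hr : r ∈ Ioc 0 (R β m)) : ps β m z r = (cz β m z r + ps β m z (rr β m r)) / β := by
  have hb := h.pos
  unfold ps
  rw [(ps_summable h hz hr).tsum_eq_zero_add]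
  have e : ∀ j : ℕ, cz β m z (orb β m r (j + 1)) / β ^ (j + 1 + 1) =
      (cz β m z (orb β m (rr β m r) j) / β ^ (j + 1)) / β := by
    intro j
    unfold orb
    rw [Function.iterate_succ_apply, div_div, ← pow_succ]
  simp_rw [e]
  rw [tsum_div_const]
  have : orb β m r 0 = r := rfl
  rw [this, zero_add, pow_one, add_div]

/-- bound for the first moments -/
lemma a_bound (h : Hyp β m) {z : Fin (m + 1) → ℝ} (hz : ∀ a, |z a| ≤ 1) (h0 : ps β m z 1 = 0) :
    ∃ K : ℝ, 0 ≤ K ∧ ∀ n : ℕ, ∀ r ∈ Ioc 0 (R β m), |UU β m n r (Sz z)| ≤ K := by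
  have hb := h.pos
  have hb1 := h.one_lt
  have hR := h.R_pos
  set B : ℝ := β * R β m * (1 / (β - 1)) with hB
  have hB0 : 0 ≤ B := by
    have : 0 < β - 1 := by linarith
    positivity
  set A : ℕ → ℝ := fun n => B * ∑ i ∈ Finset.range n, (β⁻¹) ^ i with hA
  have hAb : ∀ n, A n ≤ B * (1 - β⁻¹)⁻¹ := by
    intro n
    apply mul_le_mul_of_nonneg_left _ hB0
    have h2 : (0:ℝ) ≤ β⁻¹ := by positivity
    exact sum_le_hasSum _ (fun i _ => by positivity)
      (hasSum_geometric_of_lt_one h2 (inv_lt_one_of_one_lt₀ hb1))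
  have key : ∀ n : ℕ, ∀ r ∈ Ioc 0 (R β m), |UU β m n r (Sz z) - ps β m z r| ≤
      A n * r + B * β⁻¹ ^ n := by
    intro n
    induction n with
    | zero =>
      intro r hr
      have : UU β m 0 r (Sz z) = 0 := by simp [UU, Sz]
      rw [this, zero_sub, abs_neg]
      have h1 := ps_bound h hz hr
      simp only [hA, Finset.range_zero, Finset.sum_empty, mul_zero, zero_mul, pow_zero, mul_one,
        zero_add]
      exact h1
    | succ n ih =>
      intro r hr
      have hr' := rr_mem h hr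
      have h1 := ih 1 ⟨one_pos, h.R_one⟩
      have h2 := ih _ hr'
      rw [h0, sub_zero] at h1
      rw [a_succ h, ps_rec h hz hr]
      have e : (∑ a ∈ lowD β m r, z a + z (td β m r) * rr β m r +
          (tt β m r * UU β m n 1 (Sz z) + UU β m n (rr β m r) (Sz z))) / β -
          (cz β m z r + ps β m z (rr β m r)) / β =
          (tt β m r * UU β m n 1 (Sz z) + (UU β m n (rr β m r) (Sz z) - ps β m z (rr β m r))) / β := by
        unfold cz; ring
      rw [e, abs_div, abs_of_pos hb, div_le_iff₀ hb]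
      have ht0 : (0:ℝ) ≤ tt β m r := Nat.cast_nonneg _
      have ht := tt_add (β := β) (m := m) r
      calc |tt β m r * UU β m n 1 (Sz z) + (UU β m n (rr β m r) (Sz z) - ps β m z (rr β m r))|
          ≤ |tt β m r * UU β m n 1 (Sz z)| +
            |UU β m n (rr β m r) (Sz z) - ps β m z (rr β m r)| := abs_add_le _ _
        _ ≤ tt β m r * (A n * 1 + B * β⁻¹ ^ n) + (A n * rr β m r + B * β⁻¹ ^ n) := by
            rw [abs_mul, abs_of_nonneg ht0]
            gcongr
        _ = A n * (β * r) + tt β m r * (B * β⁻¹ ^ n) + B * β⁻¹ ^ n := by rw [← ht]; ring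
        _ ≤ A n * (β * r) + (β * r) * (B * β⁻¹ ^ n) + B * β⁻¹ ^ n := by
            have : (tt β m r : ℝ) ≤ β * r := by rw [← ht]; linarith [hr'.1]
            gcongr
        _ = (A (n + 1) * r + B * β⁻¹ ^ (n + 1)) * β := by
            simp only [hA]
            rw [Finset.sum_range_succ, pow_succ]
            field_simp
  refine ⟨B * (1 - β⁻¹)⁻¹ * R β m + B + B, ?_, fun n r hr => ?_⟩
  · have : 0 < 1 - β⁻¹ := by
      have := inv_lt_one_of_one_lt₀ hb1
      linarith
    positivity
  · have h1 := key n r hr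
    have h2 := ps_bound h hz hr
    have h3 : A n * r ≤ B * (1 - β⁻¹)⁻¹ * R β m := by
      have : 0 < 1 - β⁻¹ := by
        have := inv_lt_one_of_one_lt₀ hb1
        linarith
      exact mul_le_mul (hAb n) hr.2 hr.1.le (by positivity)
    have h4 : B * β⁻¹ ^ n ≤ B := by
      have : β⁻¹ ^ n ≤ 1 := pow_le_one₀ (by positivity) (inv_le_one_of_one_le₀ hb1.le)
      nlinarith
    have h5 : |UU β m n r (Sz z)| ≤ |UU β m n r (Sz z) - ps β m z r| + |ps β m z r| := by
      have := abs_add_le (UU β m n r (Sz z) - ps β m z r) (ps β m z r)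
      rwa [sub_add_cancel] at this
    linarith

/-- bound for the second moments -/
lemma v_bound (h : Hyp β m) {z : Fin (m + 1) → ℝ} (hz : ∀ a, |z a| ≤ 1) (h0 : ps β m z 1 = 0) :
    ∃ C : ℝ, 0 ≤ C ∧ ∀ n : ℕ, ∀ r ∈ Ioc 0 (R β m), UU β m n r (fun w => Sz z w ^ 2) ≤
      C * (n * r + 1) := by
  have hb := h.pos
  have hb1 := h.one_lt
  have hR := h.R_pos
  obtain ⟨K, hK0, hK⟩ := a_bound h hz h0
  set D : ℝ := β * R β m + 2 * K * (m + 1) with hD
  have hD0 : 0 ≤ D := by
    have h1 := mul_pos hb hR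
    have h2 : 0 ≤ 2 * K * ((m:ℝ) + 1) := by positivity
    rw [hD]; linarith
  have hb' : 0 < β - 1 := by linarith
  set C : ℝ := D / (β - 1) with hC
  have hC0 : 0 ≤ C := div_nonneg hD0 hb'.le
  refine ⟨C, hC0, fun n => ?_⟩
  induction n with
  | zero =>
    intro r hr
    have : UU β m 0 r (fun w => Sz z w ^ 2) = 0 := by simp [UU, Sz]
    have hr1 := hr.1
    rw [this]; positivity
  | succ n ih =>
    intro r hr
    have hr' := rr_mem h hr
    have h1 := ih 1 ⟨one_pos, h.R_one⟩
    have h2 := ih _ hr'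
    have ht0 : (0:ℝ) ≤ tt β m r := Nat.cast_nonneg _
    have ht := tt_add (β := β) (m := m) r
    have htm : (tt β m r : ℝ) ≤ m := by exact_mod_cast tt_le r
    rw [v_succ h, div_le_iff₀ hb]
    have hzz : ∀ a, z a ^ 2 ≤ 1 := fun a => by
      have := hz a; rw [sq_le_one_iff_abs_le_one]; exact this
    have hzK : ∀ a (x : ℝ), |x| ≤ K → 2 * z a * x ≤ 2 * K := by
      intro a x hx
      have h3 : z a * x ≤ |z a * x| := le_abs_self _
      rw [abs_mul] at h3
      have h4 : |z a| * |x| ≤ 1 * K := mul_le_mul (hz a) hx (abs_nonneg _) zero_le_one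
      linarith
    have e1 : ∑ a ∈ lowD β m r, (z a ^ 2 + 2 * z a * UU β m n 1 (Sz z)) ≤
        tt β m r * (1 + 2 * K) := by
      calc _ ≤ ∑ a ∈ lowD β m r, (1 + 2 * K) := by
            apply Finset.sum_le_sum
            intro a _
            exact add_le_add (hzz a) (hzK a _ (hK n 1 ⟨one_pos, h.R_one⟩))
        _ = _ := by rw [Finset.sum_const, card_lowD, nsmul_eq_mul]
    have e2 : z (td β m r) ^ 2 * rr β m r + 2 * z (td β m r) * UU β m n (rr β m r) (Sz z) ≤
        rr β m r + 2 * K := by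
      have h3 := hzK (td β m r) _ (hK n _ hr')
      have h4 : z (td β m r) ^ 2 * rr β m r ≤ 1 * rr β m r :=
        mul_le_mul_of_nonneg_right (hzz _) hr'.1.le
      linarith
    have e3 : tt β m r * UU β m n 1 (fun w => Sz z w ^ 2) +
        UU β m n (rr β m r) (fun w => Sz z w ^ 2) ≤
        tt β m r * (C * (n * 1 + 1)) + C * (n * rr β m r + 1) := by gcongr
    have e4 : (tt β m r : ℝ) * (1 + 2 * K) + (rr β m r + 2 * K) ≤ D := by
      rw [hD]
      have h5 : β * r ≤ β * R β m := mul_le_mul_of_nonneg_left hr.2 hb.le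
      nlinarith
    have e5 : D = C * (β - 1) := by rw [hC]; field_simp
    have e6 : (tt β m r : ℝ) * (C * (n * 1 + 1)) + C * (n * rr β m r + 1) =
        C * n * (β * r) + C * (tt β m r + 1) := by rw [← ht]; ring
    have e7 : C * ((tt β m r : ℝ) + 1) ≤ C * (β * r + 1) := by
      have : (tt β m r : ℝ) ≤ β * r := by rw [← ht]; linarith [hr'.1]
      gcongr
    push_cast
    nlinarith

end Pool.Agent.X86.FR
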