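import Pool.Agent.X86.FR.Tree

/-! the classes of sequences with prescribed upper and lower frequencies -/

set_option autoImplicit false

open Set Filter Topology MeasureTheory
open scoped ENNReal NNReal

namespace Pool.Agent.X86.FR

variable {m : ℕ} {β : ℝ}

/-- number of occurrences -/
def ct (d : Fin (m + 1)) (w : List (Fin (m + 1))) : ℝ := (w.count d : ℝ)

lemma ct_append (d : Fin (m + 1)) (u v : List (Fin (m + 1))) : ct d (u ++ v) = ct d u + ct d v := by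
  unfold ct; rw [List.count_append]; push_cast; rfl

lemma ct_nonneg (d : Fin (m + 1)) (u : List (Fin (m + 1))) : 0 ≤ ct d u := Nat.cast_nonneg _

lemma ct_le (d : Fin (m + 1)) (u : List (Fin (m + 1))) : ct d u ≤ u.length := by
  unfold ct; exact_mod_cast List.count_le_length

lemma pr_take (ε : ℕ → Fin (m + 1)) {k n : ℕ} (hk : k ≤ n) : (pr ε n).take k = pr ε k := by
  unfold pr
  rw [← List.map_take, List.take_range, min_eq_left hk]

/-- sequences with prescribed upper and lower frequencies -/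
structure FF (pb pu : Fin (m + 1) → ℝ) (ε : ℕ → Fin (m + 1)) : Prop where
  up : ∀ d, ∀ e > 0, ∃ N : ℕ, ∀ k ≥ N, ct d (pr ε k) ≤ (pb d + e) * k
  lo : ∀ d, ∀ e > 0, ∃ N : ℕ, ∀ k ≥ N, (pu d - e) * k ≤ ct d (pr ε k)
  hu : ∀ d, ∀ e > 0, ∀ N : ℕ, ∃ k ≥ N, (pb d - e) * k ≤ ct d (pr ε k)
  hl : ∀ d, ∀ e > 0, ∀ N : ℕ, ∃ k ≥ N, ct d (pr ε k) ≤ (pu d + e) * k

/-- good words -/
def WW (pb pu : Fin (m + 1) → ℝ) (δ : ℝ) (N L n : ℕ) : Set (List (Fin (m + 1))) :=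
  {w | w.length = n ∧
    (∀ k, N ≤ k → k ≤ n → ∀ d, (pu d - δ) * k ≤ ct d (w.take k) ∧
      ct d (w.take k) ≤ (pb d + δ) * k) ∧
    ∀ d, (∃ k, L ≤ k ∧ k ≤ n ∧ (pb d - δ) * k ≤ ct d (w.take k)) ∧
      (∃ k, L ≤ k ∧ k ≤ n ∧ ct d (w.take k) ≤ (pu d + δ) * k)}

lemma PP_sub (h : Hyp β m) (W : Set (List (Fin (m + 1)))) :
    PP β W (Icc 0 (R β m)) ⊆ Icc 0 (R β m) := by
  intro x hx
  unfold PP at hx
  simp only [mem_iUnion, exists_prop] at hx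
  obtain ⟨w, _, y, hy, rfl⟩ := hx
  exact h.pw_mem w hy

lemma PP_meas (h : Hyp β m) {n : ℕ} (W : Set (List (Fin (m + 1)))) (hW : ∀ w ∈ W, w.length = n) :
    MeasurableSet (PP β W (Icc 0 (R β m))) := by
  have hfin : W.Finite := (List.finite_length_eq (Fin (m + 1)) n).subset hW
  unfold PP
  refine hfin.measurableSet_biUnion fun w _ => ?_
  have hcont : Continuous (pw β w) := by
    have : pw β w = fun y => pw β w 0 + y / β ^ w.length := by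
      funext y; exact pw_eq h.pos w y
    rw [this]; fun_prop
  exact (isCompact_Icc.image hcont).isClosed.measurableSet

lemma co_le_of_lt (h : Hyp β m) {n : ℕ} (W : Set (List (Fin (m + 1)))) (hW : ∀ w ∈ W, w.length = n)
    {A : Set ℝ} (hA : A ⊆ PP β W (Icc 0 (R β m))) {η : ℝ≥0∞}
    (hlt : volume (Icc 0 (R β m)) - η < volume A) :
    co β m (PP β W (Icc 0 (R β m))) ≤ η := by
  unfold co
  rw [measure_sdiff (PP_sub h W) (PP_meas h W hW).nullMeasurableSet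
    (ne_top_of_le_ne_top (by rw [Real.volume_Icc]; exact ENNReal.ofReal_ne_top)
      (measure_mono (PP_sub h W)))]
  calc volume (Icc 0 (R β m)) - volume (PP β W (Icc 0 (R β m)))
      ≤ volume (Icc 0 (R β m)) - (volume (Icc 0 (R β m)) - η) := by
        apply tsub_le_tsub_left
        exact hlt.le.trans (measure_mono hA)
    _ ≤ η := tsub_tsub_le

lemma vol_I_ne_zero (h : Hyp β m) : volume (Icc 0 (R β m)) ≠ 0 := by
  rw [Real.volume_Icc]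
  have := h.R_pos
  simpa using this

/-- the stage lemma -/
theorem stage (h : Hyp β m) {pb pu : Fin (m + 1) → ℝ}
    (H : ∀ᵐ x ∂(volume.restrict (Icc 0 (R β m))), ∃ ε : ℕ → Fin (m + 1), Exp β x ε ∧ FF pb pu ε)
    {δ : ℝ} (hδ : 0 < δ) {η : ℝ≥0∞} (hη : η ≠ 0) :
    ∃ N : ℕ, ∀ L : ℕ, ∃ n₀ : ℕ, ∀ n ≥ n₀, co β m (PP β (WW pb pu δ N L n) (Icc 0 (R β m))) ≤ η := by
  have hItop : volume (Icc 0 (R β m)) ≠ ∞ := by rw [Real.volume_Icc]; exact ENNReal.ofReal_ne_top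
  have hlt0 : volume (Icc 0 (R β m)) - η < volume (Icc 0 (R β m)) :=
    ENNReal.sub_lt_self hItop (vol_I_ne_zero h) hη
  set G : ℕ → Set ℝ := fun N => {y | ∃ ε : ℕ → Fin (m + 1), Exp β y ε ∧ FF pb pu ε ∧
    ∀ k ≥ N, ∀ d, (pu d - δ) * k ≤ ct d (pr ε k) ∧ ct d (pr ε k) ≤ (pb d + δ) * k} with hG
  have hGmono : Monotone G := by
    intro a b hab y ⟨ε, h1, h2, h3⟩
    exact ⟨ε, h1, h2, fun k hk => h3 k (hab.trans hk)⟩
  have hGU : volume (Icc 0 (R β m)) ≤ volume (⋃ N, G N) := by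
    apply measure_mono_ae
    rw [ae_restrict_iff' measurableSet_Icc] at H
    filter_upwards [H] with x hx hxI
    obtain ⟨ε, h1, h2⟩ := hx hxI
    show x ∈ ⋃ N, G N
    have hex : ∀ d, ∃ N : ℕ, ∀ k ≥ N, (pu d - δ) * k ≤ ct d (pr ε k) ∧
        ct d (pr ε k) ≤ (pb d + δ) * k := by
      intro d
      obtain ⟨N1, hN1⟩ := h2.up d δ hδ
      obtain ⟨N2, hN2⟩ := h2.lo d δ hδ
      exact ⟨max N1 N2, fun k hk => ⟨hN2 k ((le_max_right _ _).trans hk),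
        hN1 k ((le_max_left _ _).trans hk)⟩⟩
    choose Nd hNd using hex
    rw [mem_iUnion]
    refine ⟨Finset.univ.sup Nd, ε, h1, h2, fun k hk d => hNd d k ?_⟩
    exact (Finset.le_sup (f := Nd) (Finset.mem_univ d)).trans hk
  obtain ⟨N, hN⟩ : ∃ N, volume (Icc 0 (R β m)) - η < volume (G N) := by
    have ht := tendsto_measure_iUnion_atTop (μ := (volume : Measure ℝ)) hGmono
    exact (ht.eventually (lt_mem_nhds (hlt0.trans_le hGU))).exists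
  refine ⟨N, fun L => ?_⟩
  set A : ℕ → Set ℝ := fun n => {y | ∃ ε : ℕ → Fin (m + 1), Exp β y ε ∧
    (∀ k ≥ N, ∀ d, (pu d - δ) * k ≤ ct d (pr ε k) ∧ ct d (pr ε k) ≤ (pb d + δ) * k) ∧
    ∀ d, (∃ k, L ≤ k ∧ k ≤ n ∧ (pb d - δ) * k ≤ ct d (pr ε k)) ∧
      (∃ k, L ≤ k ∧ k ≤ n ∧ ct d (pr ε k) ≤ (pu d + δ) * k)} with hA
  have hAmono : Monotone A := by
    intro a b hab y ⟨ε, h1, h2, h3⟩
    refine ⟨ε, h1, h2, fun d => ⟨?_, ?_⟩⟩
    · obtain ⟨k, hk1, hk2, hk3⟩ := (h3 d).1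
      exact ⟨k, hk1, hk2.trans hab, hk3⟩
    · obtain ⟨k, hk1, hk2, hk3⟩ := (h3 d).2
      exact ⟨k, hk1, hk2.trans hab, hk3⟩
  have hAU : G N ⊆ ⋃ n, A n := by
    rintro y ⟨ε, h1, h2, h3⟩
    have hex1 : ∀ d, ∃ k, L ≤ k ∧ (pb d - δ) * k ≤ ct d (pr ε k) := by
      intro d
      obtain ⟨k, hk, hk'⟩ := h2.hu d δ hδ L
      exact ⟨k, hk, hk'⟩
    have hex2 : ∀ d, ∃ k, L ≤ k ∧ ct d (pr ε k) ≤ (pu d + δ) * k := by
      intro d
      obtain ⟨k, hk, hk'⟩ := h2.hl d δ hδ L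
      exact ⟨k, hk, hk'⟩
    choose k1 hk1 hk1' using hex1
    choose k2 hk2 hk2' using hex2
    rw [mem_iUnion]
    refine ⟨max (Finset.univ.sup k1) (Finset.univ.sup k2), ε, h1, h3, fun d => ⟨?_, ?_⟩⟩
    · exact ⟨k1 d, hk1 d, (Finset.le_sup (f := k1) (Finset.mem_univ d)).trans (le_max_left _ _),
        hk1' d⟩
    · exact ⟨k2 d, hk2 d, (Finset.le_sup (f := k2) (Finset.mem_univ d)).trans (le_max_right _ _),
        hk2' d⟩
  have ht := tendsto_measure_iUnion_atTop (μ := (volume : Measure ℝ)) hAmono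
  have hev := ht.eventually (lt_mem_nhds (hN.trans_le (measure_mono hAU)))
  obtain ⟨n₀, hn₀⟩ := eventually_atTop.mp hev
  refine ⟨n₀, fun n hn => ?_⟩
  refine co_le_of_lt h (n := n) _ (fun w hw => hw.1) (A := A n) ?_ (hn₀ n hn)
  rintro y ⟨ε, h1, h2, h3⟩
  unfold PP
  simp only [mem_iUnion, exists_prop]
  refine ⟨pr ε n, ⟨pr_length _ _, ?_, ?_⟩, h1 n⟩
  · intro k hk hkn d
    rw [pr_take ε hkn]
    exact h2 k hk d
  · intro d
    obtain ⟨⟨k, hk1, hk2, hk3⟩, ⟨k', hk1', hk2', hk3'⟩⟩ := h3 d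
    exact ⟨⟨k, hk1, hk2, by rwa [pr_take ε hk2]⟩, ⟨k', hk1', hk2', by rwa [pr_take ε hk2']⟩⟩

end Pool.Agent.X86.FR
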