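import Pool.Agent.X86.FR.Uniq

/-! binary trees of expansions -/

set_option autoImplicit false

open Set Filter Topology MeasureTheory
open scoped ENNReal NNReal

namespace Pool.Agent.X86.FR

variable {m : ℕ} {β : ℝ}

/-- prefixes of a sequence -/
def pr (ε : ℕ → Fin (m + 1)) (n : ℕ) : List (Fin (m + 1)) := (List.range n).map ε

@[simp] lemma pr_length (ε : ℕ → Fin (m + 1)) (n : ℕ) : (pr ε n).length = n := by simp [pr]

lemma pr_succ (ε : ℕ → Fin (m + 1)) (n : ℕ) : pr ε (n + 1) = pr ε n ++ [ε n] := by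
  unfold pr; rw [List.range_succ, List.map_append]; simp

/-- `ε` is an expansion of `x` -/
def Exp (β : ℝ) (x : ℝ) (ε : ℕ → Fin (m + 1)) : Prop := ∀ n, x ∈ pw β (pr ε n) '' Icc 0 (R β m)

/-- the union of the images -/
def PP (β : ℝ) {m : ℕ} (W : Set (List (Fin (m + 1)))) (S : Set ℝ) : Set ℝ := ⋃ w ∈ W, pw β w '' S

section
variable (β) (l : ℕ → ℕ) (W : ℕ → Set (List (Fin (m + 1))))

/-- points with a binary tree of depth `i` from the stage `j` -/
def SS : ℕ → ℕ → Set ℝ
  | 0, _ => Icc 0 (R β m)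
  | i + 1, j => BB β m (l j) (PP β (W j) (SS i (j + 1)))

/-- points with an infinite binary tree from the stage `j` -/
def SI (j : ℕ) : Set ℝ := ⋂ i, SS β l W i j

end

variable {l : ℕ → ℕ} {W : ℕ → Set (List (Fin (m + 1)))}

lemma PP_mono {W' : Set (List (Fin (m + 1)))} {S S' : Set ℝ} (h : S ⊆ S') : PP β W' S ⊆ PP β W' S' :=
  iUnion₂_mono fun _ _ => image_mono h

lemma BB_mono' {k : ℕ} {S S' : Set ℝ} (h : S ⊆ S') : BB β m k S ⊆ BB β m k S' := by
  rintro x ⟨u, u', h1, h2, h3, h4, h5⟩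
  exact ⟨u, u', h1, h2, h3, image_mono h h4, image_mono h h5⟩

lemma SS_sub (h : Hyp β m) (i j : ℕ) : SS β l W i j ⊆ Icc 0 (R β m) := by
  induction i generalizing j with
  | zero => exact subset_rfl
  | succ i ih =>
    rintro x ⟨u, u', h1, h2, h3, ⟨y, hy, rfl⟩, _⟩
    unfold PP at hy
    simp only [mem_iUnion, exists_prop] at hy
    obtain ⟨w, hw, z, hz, rfl⟩ := hy
    exact h.pw_mem u (h.pw_mem w (ih _ hz))

lemma SS_anti (h : Hyp β m) (i j : ℕ) : SS β l W (i + 1) j ⊆ SS β l W i j := by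
  induction i generalizing j with
  | zero => exact SS_sub h 1 j
  | succ i ih => exact BB_mono' (PP_mono (ih (j + 1)))

lemma SS_antitone (h : Hyp β m) (j : ℕ) : Antitone (fun i => SS β l W i j) :=
  antitone_nat_of_succ_le fun i => SS_anti h i j

/-- measure bound -/
lemma SS_co (h : Hyp β m) {n : ℕ → ℕ} (hW : ∀ j, ∀ w ∈ W j, w.length = n j) {η : ℕ → ℝ≥0∞}
    (h1 : ∀ j, co β m (BB β m (l j) (Icc 0 (R β m))) ≤ η j)
    (h2 : ∀ j, cw m (l j) * co β m (PP β (W j) (Icc 0 (R β m))) ≤ η j)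
    (h3 : ∀ j, cw m (l j) * (12 * η (j + 1)) ≤ η j) (i j : ℕ) :
    co β m (SS β l W i j) ≤ 3 * η j := by
  induction i generalizing j with
  | zero =>
    unfold SS co
    simp
  | succ i ih =>
    refine (branch h (l j) _).trans ?_
    have h4 := cover h (n j) (W j) (hW j) (SS β l W i (j + 1))
    calc co β m (BB β m (l j) (Icc 0 (R β m))) + cw m (l j) * co β m (PP β (W j) (SS β l W i (j + 1)))
        ≤ η j + cw m (l j) * (co β m (PP β (W j) (Icc 0 (R β m))) + 4 * (3 * η (j + 1))) := by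
          gcongr
          · exact h1 j
          · exact h4.trans (by gcongr; exacts [le_rfl, ih (j + 1)])
      _ = η j + (cw m (l j) * co β m (PP β (W j) (Icc 0 (R β m))) + cw m (l j) * (12 * η (j + 1))) := by
          rw [mul_add, ← mul_assoc (4 : ℝ≥0∞) 3]; norm_num
      _ ≤ η j + (η j + η j) := by
          gcongr
          · exact h2 j
          · exact h3 j
      _ = 3 * η j := by ring

lemma SI_co (h : Hyp β m) {n : ℕ → ℕ} (hW : ∀ j, ∀ w ∈ W j, w.length = n j) {η : ℕ → ℝ≥0∞}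
    (h1 : ∀ j, co β m (BB β m (l j) (Icc 0 (R β m))) ≤ η j)
    (h2 : ∀ j, cw m (l j) * co β m (PP β (W j) (Icc 0 (R β m))) ≤ η j)
    (h3 : ∀ j, cw m (l j) * (12 * η (j + 1)) ≤ η j) (j : ℕ) :
    co β m (SI β l W j) ≤ 3 * η j := by
  unfold co SI
  rw [Set.sdiff_iInter]
  have hmono : Monotone (fun i => Icc 0 (R β m) \ SS β l W i j) := by
    intro a b hab
    exact sdiff_subset_sdiff_right (SS_antitone h j hab)
  rw [hmono.measure_iUnion]
  exact iSup_le fun i => SS_co h hW h1 h2 h3 i j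

/-- the inverse of `pw` -/
noncomputable def tw (β : ℝ) (w : List (Fin (m + 1))) (x : ℝ) : ℝ := (x - pw β w 0) * β ^ w.length

lemma mem_image_pw (h : Hyp β m) (w : List (Fin (m + 1))) (x : ℝ) (S : Set ℝ) :
    x ∈ pw β w '' S ↔ tw β w x ∈ S := by
  have hb : (0:ℝ) < β ^ w.length := pow_pos h.pos _
  constructor
  · rintro ⟨y, hy, rfl⟩
    have : tw β w (pw β w y) = y := by
      unfold tw; rw [pw_eq h.pos w y]; field_simp; ring
    rwa [this]
  · intro hx
    refine ⟨_, hx, ?_⟩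
    rw [pw_eq h.pos]; unfold tw; field_simp; ring

lemma mem_BBPP (h : Hyp β m) {k : ℕ} {W' : Set (List (Fin (m + 1)))} {S : Set ℝ} {x : ℝ} :
    x ∈ BB β m k (PP β W' S) ↔ ∃ u u' w w' : List (Fin (m + 1)), u.length = k ∧ u'.length = k ∧
      u ≠ u' ∧ w ∈ W' ∧ w' ∈ W' ∧ tw β (u ++ w) x ∈ S ∧ tw β (u' ++ w') x ∈ S := by
  have key : ∀ u : List (Fin (m + 1)), x ∈ pw β u '' (PP β W' S) ↔ ∃ w ∈ W', tw β (u ++ w) x ∈ S := by
    intro u
    constructor
    · rintro ⟨y, hy, rfl⟩
      unfold PP at hy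
      simp only [mem_iUnion, exists_prop] at hy
      obtain ⟨w, hw, z, hz, rfl⟩ := hy
      refine ⟨w, hw, ?_⟩
      rw [← mem_image_pw h]
      exact ⟨z, hz, pw_append _ _ _⟩
    · rintro ⟨w, hw, hx⟩
      rw [← mem_image_pw h] at hx
      obtain ⟨z, hz, rfl⟩ := hx
      refine ⟨pw β w z, ?_, (pw_append _ _ _).symm⟩
      unfold PP
      simp only [mem_iUnion, exists_prop]
      exact ⟨w, hw, z, hz, rfl⟩
  unfold BB
  simp only [mem_ofPred_eq, key]
  constructor
  · rintro ⟨u, u', h1, h2, h3, ⟨w, hw, h4⟩, ⟨w', hw', h5⟩⟩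
    exact ⟨u, u', w, w', h1, h2, h3, hw, hw', h4, h5⟩
  · rintro ⟨u, u', w, w', h1, h2, h3, hw, hw', h4, h5⟩
    exact ⟨u, u', h1, h2, h3, ⟨w, hw, h4⟩, ⟨w', hw', h5⟩⟩

/-- one step in the infinite tree -/
lemma SI_step (h : Hyp β m) {n : ℕ → ℕ} (hW : ∀ j, ∀ w ∈ W j, w.length = n j) {j : ℕ} {x : ℝ}
    (hx : x ∈ SI β l W j) : ∃ u u' w w' : List (Fin (m + 1)), u.length = l j ∧ u'.length = l j ∧
      u ≠ u' ∧ w ∈ W j ∧ w' ∈ W j ∧ tw β (u ++ w) x ∈ SI β l W (j + 1) ∧
      tw β (u' ++ w') x ∈ SI β l W (j + 1) := by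
  classical
  by_contra hcon
  push Not at hcon
  set Q : Set (List (Fin (m + 1)) × List (Fin (m + 1)) × List (Fin (m + 1)) × List (Fin (m + 1))) :=
    {q | q.1.length = l j ∧ q.2.1.length = l j ∧ q.2.2.1.length = n j ∧ q.2.2.2.length = n j} with hQ
  have hQf : Q.Finite := by
    have hf := fun k => List.finite_length_eq (Fin (m + 1)) k
    refine ((hf (l j)).prod ((hf (l j)).prod ((hf (n j)).prod (hf (n j))))).subset ?_
    rintro ⟨a, b, c, d⟩ ⟨h1, h2, h3, h4⟩
    exact ⟨h1, h2, h3, h4⟩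
  have hi : ∀ q : List (Fin (m + 1)) × List (Fin (m + 1)) × List (Fin (m + 1)) × List (Fin (m + 1)),
      ∃ i₀ : ℕ, ∀ i, i₀ ≤ i → q.1.length = l j → q.2.1.length = l j → q.1 ≠ q.2.1 →
        q.2.2.1 ∈ W j → q.2.2.2 ∈ W j →
        ¬ (tw β (q.1 ++ q.2.2.1) x ∈ SS β l W i (j + 1) ∧
          tw β (q.2.1 ++ q.2.2.2) x ∈ SS β l W i (j + 1)) := by
    rintro ⟨u, u', w, w'⟩
    by_cases hall : u.length = l j ∧ u'.length = l j ∧ u ≠ u' ∧ w ∈ W j ∧ w' ∈ W j
    · obtain ⟨h1, h2, h3, h4, h5⟩ := hall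
      by_cases h6 : tw β (u ++ w) x ∈ SI β l W (j + 1)
      · have h7 := hcon u u' w w' h1 h2 h3 h4 h5 h6
        unfold SI at h7
        rw [mem_iInter] at h7
        push Not at h7
        obtain ⟨i₀, hi₀⟩ := h7
        refine ⟨i₀, fun i hi _ _ _ _ _ h8 => hi₀ (SS_antitone h (j + 1) hi h8.2)⟩
      · unfold SI at h6
        rw [mem_iInter] at h6
        push Not at h6
        obtain ⟨i₀, hi₀⟩ := h6
        refine ⟨i₀, fun i hi _ _ _ _ _ h8 => hi₀ (SS_antitone h (j + 1) hi h8.1)⟩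
    · exact ⟨0, fun i _ h1 h2 h3 h4 h5 => absurd ⟨h1, h2, h3, h4, h5⟩ hall⟩
  choose f hf using hi
  set i := hQf.toFinset.sup f with hidef
  have hx1 := mem_iInter.mp hx (i + 1)
  have hx2 : x ∈ BB β m (l j) (PP β (W j) (SS β l W i (j + 1))) := hx1
  rw [mem_BBPP h] at hx2
  obtain ⟨u, u', w, w', h1, h2, h3, h4, h5, h6, h7⟩ := hx2
  refine hf (u, u', w, w') i ?_ h1 h2 h3 h4 h5 ⟨h6, h7⟩
  refine Finset.le_sup (f := f) ?_
  rw [Set.Finite.mem_toFinset]
  exact ⟨h1, h2, hW j w h4, hW j w' h5⟩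

/-- lengths of the prefixes -/
def ML (l n : ℕ → ℕ) (j : ℕ) : ℕ := ∑ i ∈ Finset.range j, (l i + n i)

lemma ML_succ (l n : ℕ → ℕ) (j : ℕ) : ML l n (j + 1) = ML l n j + (l j + n j) :=
  Finset.sum_range_succ _ _

/-- `ε` is a concatenation of blocks -/
def Blocks (l n : ℕ → ℕ) (W : ℕ → Set (List (Fin (m + 1)))) (ε : ℕ → Fin (m + 1)) : Prop :=
  ∀ j, ∃ u w : List (Fin (m + 1)), u.length = l j ∧ w ∈ W j ∧
    pr ε (ML l n (j + 1)) = pr ε (ML l n j) ++ (u ++ w)

lemma tw_append (h : Hyp β m) (u v : List (Fin (m + 1))) (x : ℝ) :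
    tw β (u ++ v) x = tw β v (tw β u x) := by
  have hb := h.pos
  unfold tw
  rw [pw_append, pw_eq hb u (pw β v 0), List.length_append, pow_add]
  field_simp
  ring

/-- **A continuum of expansions.** -/
theorem tree (h : Hyp β m) {n : ℕ → ℕ} (hW : ∀ j, ∀ w ∈ W j, w.length = n j)
    (hl : ∀ j, 1 ≤ l j) {x : ℝ} (hx : x ∈ SI β l W 0) :
    ∃ F : (ℕ → Bool) → (ℕ → Fin (m + 1)), Function.Injective F ∧
      ∀ c, Exp β x (F c) ∧ Blocks l n W (F c) := by
  classical
  -- the steps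
  have hstep : ∀ (j : ℕ) (y : ℝ), ∃ v : Bool → List (Fin (m + 1)), y ∈ SI β l W j →
      v true ≠ v false ∧ ∀ b, (∃ u w : List (Fin (m + 1)), u.length = l j ∧ w ∈ W j ∧
        v b = u ++ w) ∧ tw β (v b) y ∈ SI β l W (j + 1) := by
    intro j y
    by_cases hy : y ∈ SI β l W j
    · obtain ⟨u, u', w, w', h1, h2, h3, h4, h5, h6, h7⟩ := SI_step h hW hy
      refine ⟨fun b => if b then u ++ w else u' ++ w', fun _ => ⟨?_, ?_⟩⟩
      · simp only [if_true]
        intro he
        exact h3 (List.append_inj_left (by simpa using he) (by rw [h1, h2]))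
      · intro b
        cases b
        · exact ⟨⟨u', w', h2, h5, by simp⟩, by simpa using h7⟩
        · exact ⟨⟨u, w, h1, h4, by simp⟩, by simpa using h6⟩
    · exact ⟨fun _ => [], fun hy' => absurd hy' hy⟩
  choose v hv using hstep
  -- points and prefixes
  obtain ⟨P, hP0, hP1⟩ : ∃ P : (ℕ → Bool) → ℕ → ℝ, (∀ c, P c 0 = x) ∧
      ∀ c j, P c (j + 1) = tw β (v j (P c j) (c j)) (P c j) :=
    ⟨fun c j => Nat.rec x (fun i y => tw β (v i y (c i)) y) j, fun c => rfl, fun c j => rfl⟩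
  have hPm : ∀ c j, P c j ∈ SI β l W j := by
    intro c j
    induction j with
    | zero => rw [hP0]; exact hx
    | succ j ih => rw [hP1]; exact ((hv j _ ih).2 (c j)).2
  obtain ⟨V, hV0, hV1⟩ : ∃ V : (ℕ → Bool) → ℕ → List (Fin (m + 1)), (∀ c, V c 0 = []) ∧
      ∀ c j, V c (j + 1) = V c j ++ v j (P c j) (c j) :=
    ⟨fun c j => Nat.rec [] (fun i z => z ++ v i (P c i) (c i)) j, fun c => rfl, fun c j => rfl⟩
  have hblen : ∀ c j, (v j (P c j) (c j)).length = l j + n j := by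
    intro c j
    obtain ⟨u, w, h1, h2, h3⟩ := ((hv j _ (hPm c j)).2 (c j)).1
    rw [h3, List.length_append, h1, hW j w h2]
  have hVlen : ∀ c j, (V c j).length = ML l n j := by
    intro c j
    induction j with
    | zero => simp [hV0, ML]
    | succ j ih => rw [hV1, List.length_append, ih, hblen, ML_succ]
  have hPV : ∀ c j, P c j = tw β (V c j) x := by
    intro c j
    induction j with
    | zero => rw [hP0, hV0]; simp [tw]
    | succ j ih => rw [hP1, hV1, tw_append h, ← ih]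
  have hML : ∀ j, j ≤ ML l n j := by
    intro j
    induction j with
    | zero => exact Nat.zero_le _
    | succ j ih => rw [ML_succ]; have := hl j; omega
  have hpre : ∀ c j k, V c j <+: V c (j + k) := by
    intro c j k
    induction k with
    | zero => exact List.prefix_rfl
    | succ k ih =>
      rw [← add_assoc, hV1]
      exact ih.trans (List.prefix_append _ _)
  -- the sequence
  set F : (ℕ → Bool) → (ℕ → Fin (m + 1)) := fun c i => (V c (i + 1)).getD i 0 with hF
  have hFV : ∀ c j i, i < ML l n j → F c i = (V c j).getD i 0 := by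
    intro c j i hi
    have hi1 : i < (V c j).length := by rw [hVlen]; exact hi
    have hi2 : i < (V c (i + 1)).length := by
      rw [hVlen]; have := hML (i + 1); omega
    simp only [hF]
    rw [List.getD_eq_getElem _ _ hi1, List.getD_eq_getElem _ _ hi2]
    rcases le_total j (i + 1) with hle | hle
    · obtain ⟨k, hk⟩ := Nat.exists_eq_add_of_le hle
      have := (hpre c j k)
      rw [← hk] at this
      exact (this.getElem hi1).symm
    · obtain ⟨k, hk⟩ := Nat.exists_eq_add_of_le hle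
      have := (hpre c (i + 1) k)
      rw [← hk] at this
      exact this.getElem hi2
  have hpr : ∀ c j, pr (F c) (ML l n j) = V c j := by
    intro c j
    apply List.ext_getElem
    · rw [pr_length, hVlen]
    · intro i h1 h2
      have hi : i < ML l n j := by rwa [pr_length] at h1
      have : (pr (F c) (ML l n j))[i] = F c i := by simp [pr]
      rw [this, hFV c j i hi, List.getD_eq_getElem _ _ h2]
  refine ⟨F, ?_, fun c => ⟨?_, ?_⟩⟩
  · intro c c' hcc
    by_contra hne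
    have hex : ∃ j, c j ≠ c' j := by
      by_contra hall
      push Not at hall
      exact hne (funext hall)
    set j := Nat.find hex with hj
    have hj1 : c j ≠ c' j := Nat.find_spec hex
    have hj2 : ∀ i < j, c i = c' i := fun i hi => not_not.mp (Nat.find_min hex hi)
    have hPeq : ∀ i, i ≤ j → P c i = P c' i := by
      intro i hi
      induction i with
      | zero => rw [hP0, hP0]
      | succ i ih => rw [hP1, hP1, ih (by omega), hj2 i (by omega)]
    have hVeq : V c (j + 1) = V c' (j + 1) := by rw [← hpr c, ← hpr c', hcc]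
    rw [hV1, hV1, hPeq j le_rfl] at hVeq
    have hle : (V c j).length = (V c' j).length := by rw [hVlen, hVlen]
    have hb := List.append_inj_right hVeq hle
    have hd := (hv j _ (hPm c' j)).1
    revert hb hd hj1
    generalize c j = b
    generalize c' j = b'
    intro h1 h2 h3
    cases b <;> cases b'
    · exact h1 rfl
    · exact h3 h2.symm
    · exact h3 h2
    · exact h1 rfl
  · -- expansion
    intro k
    have hk := hML k
    have h1 : pr (F c) k = (V c k).take k := by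
      rw [← hpr c k]
      unfold pr
      rw [← List.map_take, List.take_range, min_eq_left hk]
    have h2 : V c k = (V c k).take k ++ (V c k).drop k := (List.take_append_drop k _).symm
    have h3 : x ∈ pw β (V c k) '' Icc 0 (R β m) := by
      rw [mem_image_pw h, ← hPV]
      exact SS_sub h 0 k (mem_iInter.mp (hPm c k) 0)
    obtain ⟨y, hy, hyx⟩ := h3
    rw [h1, ← hyx]
    refine ⟨pw β ((V c k).drop k) y, h.pw_mem _ hy, ?_⟩
    rw [← pw_append, ← h2]
  · intro j
    obtain ⟨u, w, h1, h2, h3⟩ := ((hv j _ (hPm c j)).2 (c j)).1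
    refine ⟨u, w, h1, h2, ?_⟩
    rw [hpr, hpr, hV1, h3]

end Pool.Agent.X86.FR
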