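import Pool.Agent.X86.FR.Basic

/-! almost all points have two expansions -/

set_option autoImplicit false

open Set Filter Topology MeasureTheory
open scoped ENNReal NNReal

namespace Pool.Agent.X86.FR

variable {m : ℕ} {β : ℝ}

lemma BB_mono (h : Hyp β m) (l : ℕ) : BB β m l (Icc 0 (R β m)) ⊆ BB β m (l + 1) (Icc 0 (R β m)) := by
  rintro x ⟨u, u', h1, h2, h3, ⟨y, hy, hyx⟩, ⟨y', hy', hyx'⟩⟩
  obtain ⟨d, hd⟩ := h.digit hy
  obtain ⟨d', hd'⟩ := h.digit hy'
  have hb := h.pos
  refine ⟨u ++ [d], u' ++ [d'], by simp [h1], by simp [h2], ?_, ⟨_, hd, ?_⟩, ⟨_, hd', ?_⟩⟩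
  · intro he
    exact h3 (List.append_inj_left he (by rw [h1, h2]))
  · rw [pw_append, ← hyx]
    congr 1
    simp only [pw_cons, pw_nil]
    field_simp
    ring
  · rw [pw_append, ← hyx']
    congr 1
    simp only [pw_cons, pw_nil]
    field_simp
    ring

lemma exists_word (h : Hyp β m) {x : ℝ} (hx : x ∈ Icc 0 (R β m)) (n : ℕ) :
    ∃ w : List (Fin (m + 1)), w.length = n ∧ x ∈ pw β w '' Icc 0 (R β m) := by
  induction n with
  | zero => exact ⟨[], rfl, x, hx, rfl⟩
  | succ n ih =>
    obtain ⟨w, hw, y, hy, hyx⟩ := ih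
    obtain ⟨d, hd⟩ := h.digit hy
    have hb := h.pos
    refine ⟨w ++ [d], by simp [hw], _, hd, ?_⟩
    rw [pw_append, ← hyx]
    congr 1
    simp only [pw_cons, pw_nil]
    field_simp
    ring

lemma BB_meas (h : Hyp β m) (l : ℕ) : MeasurableSet (BB β m l (Icc 0 (R β m))) := by
  have e : BB β m l (Icc 0 (R β m)) = ⋃ p ∈ {p : List (Fin (m + 1)) × List (Fin (m + 1)) |
      p.1.length = l ∧ p.2.length = l ∧ p.1 ≠ p.2},
      (pw β p.1 '' Icc 0 (R β m) ∩ pw β p.2 '' Icc 0 (R β m)) := by
    ext x
    simp only [BB, mem_ofPred_eq, mem_iUnion, exists_prop, Prod.exists, mem_inter_iff]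
    constructor
    · rintro ⟨u, u', h1, h2, h3, h4, h5⟩
      exact ⟨u, u', ⟨h1, h2, h3⟩, h4, h5⟩
    · rintro ⟨u, u', ⟨h1, h2, h3⟩, h4, h5⟩
      exact ⟨u, u', h1, h2, h3, h4, h5⟩
  rw [e]
  have hfin : {p : List (Fin (m + 1)) × List (Fin (m + 1)) |
      p.1.length = l ∧ p.2.length = l ∧ p.1 ≠ p.2}.Finite := by
    refine ((List.finite_length_eq (Fin (m + 1)) l).prod (List.finite_length_eq (Fin (m + 1)) l)).subset ?_
    rintro ⟨a, b⟩ ⟨h1, h2, _⟩
    exact ⟨h1, h2⟩
  refine hfin.measurableSet_biUnion fun p _ => ?_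
  have hc : ∀ w : List (Fin (m + 1)), MeasurableSet (pw β w '' Icc 0 (R β m)) := by
    intro w
    have hcont : Continuous (pw β w) := by
      have : pw β w = fun y => pw β w 0 + y / β ^ w.length := by
        funext y; exact pw_eq h.pos w y
      rw [this]; fun_prop
    exact (isCompact_Icc.image hcont).isClosed.measurableSet
  exact (hc _).inter (hc _)

/-- the points with one expansion form a null set -/
theorem uniq_null (h : Hyp β m) : volume (⋂ l, (Icc 0 (R β m) \ BB β m l (Icc 0 (R β m)))) = 0 := by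
  classical
  set I := Icc 0 (R β m) with hI
  set U := ⋂ l, (I \ BB β m l I) with hU
  by_contra hne
  have hRp := h.R_pos
  have hvI : volume I = ENNReal.ofReal (R β m) := by rw [hI, Real.volume_Icc, sub_zero]
  have hUI : U ⊆ I := fun x hx => (mem_iInter.mp hx 0).1
  have hUfin : volume U ≠ ∞ := by
    refine ne_top_of_le_ne_top ?_ (measure_mono hUI)
    rw [hvI]; exact ENNReal.ofReal_ne_top
  -- an overlap interval
  have hR1 : 1 < R β m := by
    unfold R
    rw [lt_div_iff₀ (by linarith [h.one_lt])]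
    linarith [h.lt]
  have hJ : Icc (1 / β) (R β m / β) ⊆ BB β m 1 I := by
    intro x hx
    have hb := h.pos
    have h1 : 1 ≤ β * x := by
      have := hx.1; rw [div_le_iff₀ hb] at this; linarith
    have h2 : β * x ≤ R β m := by
      have := hx.2; rw [le_div_iff₀ hb] at this; linarith
    have hm1 : 1 < m + 1 := by
      have := h.m_pos
      have : 0 < m := by exact_mod_cast this
      omega
    refine ⟨[0], [⟨1, hm1⟩], rfl, rfl, ?_, ⟨β * x, ⟨by linarith, h2⟩, ?_⟩,
      ⟨β * x - 1, ⟨by linarith, by linarith⟩, ?_⟩⟩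
    · intro he
      simp only [List.cons.injEq, and_true] at he
      have := congrArg Fin.val he
      simp at this
    · simp only [pw_cons, pw_nil, Fin.val_zero, Nat.cast_zero]; field_simp; ring
    · simp only [pw_cons, pw_nil, Nat.cast_one]; field_simp; ring
  have hvJ : volume (Icc (1 / β) (R β m / β)) = ENNReal.ofReal ((R β m - 1) / β) := by
    rw [Real.volume_Icc]; congr 1; ring
  -- upper bound for the measure of U
  have hUlt : volume U < volume I := by
    have hsub : U ⊆ I \ Icc (1 / β) (R β m / β) := fun x hx =>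
      ⟨hUI hx, fun hxJ => (mem_iInter.mp hx 1).2 (hJ hxJ)⟩
    refine lt_of_le_of_lt (measure_mono hsub) ?_
    have hJI : Icc (1 / β) (R β m / β) ⊆ I := by
      apply Icc_subset_Icc
      · have := h.pos; positivity
      · exact div_le_self hRp.le h.one_lt.le
    rw [measure_sdiff hJI measurableSet_Icc.nullMeasurableSet (by rw [hvJ]; exact ENNReal.ofReal_ne_top)]
    apply ENNReal.sub_lt_self
    · rw [hvI]; exact ENNReal.ofReal_ne_top
    · rw [hvI]; simpa using hRp
    · rw [hvJ]
      have : 0 < (R β m - 1) / β := div_pos (by linarith) h.pos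
      simpa using this
  -- a density point
  have hden := Besicovitch.ae_tendsto_measure_inter_div (volume : Measure ℝ) U
  have hex : ∃ x ∈ U, Tendsto (fun r => volume (U ∩ Metric.closedBall x r) /
      volume (Metric.closedBall x r)) (𝓝[>] 0) (𝓝 1) := by
    by_contra hcon
    push Not at hcon
    rw [ae_iff] at hden
    apply hne
    have hmeas : MeasurableSet U := MeasurableSet.iInter fun l => measurableSet_Icc.diff (BB_meas h l)
    rw [Measure.restrict_apply' hmeas] at hden
    refine measure_mono_null ?_ hden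
    intro x hx
    exact ⟨hcon x hx, hx⟩
  obtain ⟨x, hxU, hx⟩ := hex
  have hr : Tendsto (fun n : ℕ => R β m / β ^ n) atTop (𝓝[>] 0) := by
    rw [tendsto_nhdsWithin_iff]
    constructor
    · have := (tendsto_pow_atTop_nhds_zero_of_lt_one (r := β⁻¹) (inv_nonneg.mpr h.pos.le)
        (inv_lt_one_of_one_lt₀ h.one_lt)).const_mul (R β m)
      rw [mul_zero] at this
      refine this.congr fun n => ?_
      rw [inv_pow, div_eq_mul_inv]
    · exact Eventually.of_forall fun n => div_pos hRp (pow_pos h.pos n)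
  have hlim := hx.comp hr
  set a := (volume U).toReal with ha
  have hva : volume U = ENNReal.ofReal a := (ENNReal.ofReal_toReal hUfin).symm
  have ha0 : 0 ≤ a := ENNReal.toReal_nonneg
  have haR : a < R β m := by
    rw [hva, hvI] at hUlt
    exact (ENNReal.ofReal_lt_ofReal_iff hRp).mp hUlt
  have hbound : ∀ n : ℕ, volume (U ∩ Metric.closedBall x (R β m / β ^ n)) /
      volume (Metric.closedBall x (R β m / β ^ n)) ≤ ENNReal.ofReal ((a + R β m) / (2 * R β m)) := by
    intro n
    have hbn : 0 < β ^ n := pow_pos h.pos n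
    obtain ⟨w, hw, hxw⟩ := exists_word h (hUI hxU) n
    set r := R β m / β ^ n with hrdef
    have hr0 : 0 < r := div_pos hRp hbn
    have hIw : pw β w '' I ⊆ Metric.closedBall x r := by
      rintro _ ⟨y, hy, rfl⟩
      obtain ⟨z, hz, hzx⟩ := hxw
      rw [Metric.mem_closedBall, Real.dist_eq, ← hzx, pw_eq h.pos w y, pw_eq h.pos w z, hw]
      have : pw β w 0 + y / β ^ n - (pw β w 0 + z / β ^ n) = (y - z) / β ^ n := by ring
      rw [this, abs_div, abs_of_pos hbn, hrdef]
      apply div_le_div_of_nonneg_right _ hbn.le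
      rw [abs_le]
      constructor <;> linarith [hy.1, hy.2, hz.1, hz.2]
    have hU1 : U ∩ pw β w '' I ⊆ pw β w '' U := by
      rintro _ ⟨hyU, y, hy, rfl⟩
      refine ⟨y, ?_, rfl⟩
      rw [hU, mem_iInter]
      intro l
      refine ⟨hy, fun hyB => ?_⟩
      obtain ⟨u, u', h1, h2, h3, ⟨z, hz, hzy⟩, ⟨z', hz', hzy'⟩⟩ := hyB
      refine (mem_iInter.mp hyU (n + l)).2 ⟨w ++ u, w ++ u', by simp [hw, h1], by simp [hw, h2],
        fun he => h3 (List.append_cancel_left he), ⟨z, hz, ?_⟩, ⟨z', hz', ?_⟩⟩
      · rw [pw_append, hzy]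
      · rw [pw_append, hzy']
    have hcomp : IsCompact (pw β w '' I) := by
      have hcont : Continuous (pw β w) := by
        have : pw β w = fun y => pw β w 0 + y / β ^ w.length := by
          funext y; exact pw_eq h.pos w y
        rw [this]; fun_prop
      exact isCompact_Icc.image hcont
    have hvw : volume (pw β w '' I) = ENNReal.ofReal r := by
      rw [volume_image_pw h, hw, hvI, ← ENNReal.ofReal_mul (by positivity)]
      congr 1
      rw [hrdef]; field_simp
    have hvb : volume (Metric.closedBall x r) = ENNReal.ofReal (2 * r) := Real.volume_closedBall x r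
    have h1 : volume (U ∩ Metric.closedBall x r) ≤ ENNReal.ofReal (a / β ^ n + r) := by
      have hsub : U ∩ Metric.closedBall x r ⊆ pw β w '' U ∪ (Metric.closedBall x r \ pw β w '' I) := by
        rintro y ⟨hyU, hyB⟩
        by_cases hc : y ∈ pw β w '' I
        · left; exact hU1 ⟨hyU, hc⟩
        · right; exact ⟨hyB, hc⟩
      refine (measure_mono hsub).trans ((measure_union_le _ _).trans ?_)
      rw [measure_sdiff hIw hcomp.isClosed.measurableSet.nullMeasurableSet (by
        rw [hvw]; exact ENNReal.ofReal_ne_top), hvb, hvw, volume_image_pw h, hw, hva,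
        ← ENNReal.ofReal_mul (by positivity), ← ENNReal.ofReal_sub _ hr0.le,
        ← ENNReal.ofReal_add (by positivity) (by linarith)]
      apply ENNReal.ofReal_le_ofReal
      apply le_of_eq
      ring
    rw [hvb]
    refine (ENNReal.div_le_div_right h1 _).trans ?_
    rw [← ENNReal.ofReal_div_of_pos (by positivity)]
    apply ENNReal.ofReal_le_ofReal
    apply le_of_eq
    rw [hrdef]
    field_simp
  have h2 : (1 : ℝ≥0∞) ≤ ENNReal.ofReal ((a + R β m) / (2 * R β m)) := le_of_tendsto' hlim hbound
  rw [ENNReal.one_le_ofReal, le_div_iff₀ (by positivity)] at h2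
  linarith

/-- almost all points have two admissible words of a given large length -/
theorem kappa (h : Hyp β m) : Tendsto (fun l => co β m (BB β m l (Icc 0 (R β m)))) atTop (𝓝 0) := by
  unfold co
  rw [← uniq_null h]
  apply tendsto_measure_iInter_atTop
  · intro l
    exact (measurableSet_Icc.diff (BB_meas h l)).nullMeasurableSet
  · exact antitone_nat_of_succ_le fun l => sdiff_subset_sdiff_right (BB_mono h l)
  · refine ⟨0, ne_top_of_le_ne_top ?_ (measure_mono sdiff_subset)⟩
    rw [Real.volume_Icc]; exact ENNReal.ofReal_ne_top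

end Pool.Agent.X86.FR
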